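import Pool.Agent.H719R4.FX.Alg2

/-! # The final theorem for smooth algebraic ovals: assembly (AAY, helper775, adapted from AAX) -/

open Complex Set Filter Topology Polynomial

open scoped Polynomial.Bivariate

namespace H719FX

open H738CZ

theorem AAY_tend (x : ℝ) : Tendsto (fun t : ℝ => (t : ℂ)) (𝓝[≠] x) (𝓝[≠] (x : ℂ)) := by
  refine tendsto_nhdsWithin_iff.2
    ⟨Complex.continuous_ofReal.continuousAt.tendsto.mono_left nhdsWithin_le_nhds, ?_⟩
  filter_upwards [self_mem_nhdsWithin] with t ht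
  simpa using ht

theorem AAY_freq {F : ℂ → ℂ} {x : ℝ} (h : ∀ᶠ t : ℝ in 𝓝 x, F t = 0) :
    ∃ᶠ z in 𝓝[≠] (x : ℂ), F z = 0 := by
  have h1 : ∃ᶠ t : ℝ in 𝓝[≠] x, F t = 0 :=
    (h.filter_mono nhdsWithin_le_nhds).frequently
  exact (AAY_tend x).frequently h1

theorem AAY_diff (A : ℂ[X][Y]) {Z W : ℂ → ℂ} {U : Set ℂ} (hZ : DifferentiableOn ℂ Z U)
    (hW : DifferentiableOn ℂ W U) : DifferentiableOn ℂ (fun t => A.evalEval (Z t) (W t)) U := by
  induction A using Polynomial.induction_on' with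
  | add p q hp hq =>
    refine (hp.add hq).congr fun t _ => ?_
    exact evalEval_add (Z t) (W t) p q
  | monomial n a =>
    have h : ∀ t, (monomial n a : ℂ[X][Y]).evalEval (Z t) (W t) = a.eval (Z t) * (W t) ^ n := by
      intro t
      rw [← C_mul_X_pow_eq_monomial, evalEval_mul, evalEval_C, evalEval_pow, evalEval_X]
    simp only [h]
    exact (a.differentiable.comp_differentiableOn hZ).mul (hW.pow n)

theorem AAY_good {Z W W' : ℂ → ℂ} {t : ℂ} (h : W =ᶠ[𝓝 t] W') (hg : GoodAt Z W t) :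
    GoodAt Z W' t := by
  obtain ⟨Φ, ρ, hp, hk⟩ := hg
  refine ⟨Φ, ρ, ⟨hp.aΦ, hp.aρ, hp.dΦ, hp.nρ, hp.eZ, ?_⟩, hk⟩
  filter_upwards [hp.eW, h.deriv] with s h1 h2
  rw [← h2, h1]

theorem AAY_Wr (ω : ℂ → ℂ) (z : ℂ) : Wr (fun x => x) ω z = deriv (deriv ω) z := by
  have h1 : deriv (fun x : ℂ => x) = fun _ => 1 := by
    funext x
    exact deriv_id x
  unfold Wr
  rw [h1]
  simp

theorem AAY_ev (q0 q1 q2 q3 q4 q5 z w : ℂ) :
    (C (C q0 * X ^ 2 + C q3 * X + C q5) + C (C q1 * X + C q4) * X + C (C q2) * X ^ 2 :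
      ℂ[X][Y]).evalEval z w = q0 * z ^ 2 + q1 * z * w + q2 * w ^ 2 + q3 * z + q4 * w + q5 := by
  simp only [evalEval, eval_add, eval_mul, eval_pow, eval_X, eval_C]
  ring

theorem tAAY (hAS2 : StAS2) (hAT2 : StAT2) (hLC : StLC) (hALO : StALO) (hABZ : StABZ)
    (hAGR : StAGR) (hAGL : StAGL) (hCQU : StCQU) (hAFL : StAFL) (hCEL : StCEL) : StAAY := by
  intro γ ρ ho K ε hε hK hrefl hnc hsm A hA0 hA
  obtain ⟨s0, hs0⟩ := hAS2 γ ρ ho A hA0 hA
  obtain ⟨x, Z, W, r, hr, hZd, hWd, hZW, hreg, hgood⟩ :=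
    hAT2 γ ρ ho K ε hε hK hrefl hnc s0 hs0
  have hxr : (x : ℂ) ∈ Metric.ball (x : ℂ) r := Metric.mem_ball_self hr
  have hopen : IsOpen (Metric.ball (x : ℂ) r) := Metric.isOpen_ball
  have hballR : ∀ᶠ t : ℝ in 𝓝 x, (t : ℂ) ∈ Metric.ball (x : ℂ) r :=
    Complex.continuous_ofReal.continuousAt.preimage_mem_nhds (hopen.mem_nhds hxr)
  -- the algebraic relation on the ball
  have hAZW : ∀ t ∈ Metric.ball (x : ℂ) r, A.evalEval (Z t) (W t) = 0 := by
    have h1 := (AAY_diff A hZd hWd).analyticOnNhd hopen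
    have h2 := h1.eqOn_zero_of_preconnected_of_frequently_eq_zero
      (convex_ball (x : ℂ) r).isPreconnected hxr (AAY_freq (by
        filter_upwards [hballR] with t ht
        rw [(hZW t ht).1, (hZW t ht).2]
        exact hA t))
    exact fun t ht => h2 ht
  obtain ⟨A', B, hAC, hA'⟩ := hABZ A hA0 Z W x r hr hZd hWd fun t ht =>
    ⟨(hreg t ht).1, (hreg t ht).2.1, (hreg t ht).2.2, hAZW t ht⟩
  -- a real point with `Z t0 ∉ B`
  have hZax : AnalyticAt ℂ Z x := hZd.analyticAt (hopen.mem_nhds hxr)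
  have hev : ∀ᶠ z in 𝓝[≠] (x : ℂ), Z z ∉ B := by
    have h1 : ∀ b ∈ B, ∀ᶠ z in 𝓝[≠] (x : ℂ), Z z ≠ b := by
      intro b _
      rcases hZax.eventually_eq_or_eventually_ne (analyticAt_const (v := b)) with h | h
      · exfalso
        have h2 : Z =ᶠ[𝓝 (x : ℂ)] fun _ => b := h
        have h3 := h2.deriv_eq
        rw [deriv_const] at h3
        exact (hreg x hxr).1 h3
      · exact h
    have h2 := (Filter.eventually_all_finite hAC.fin).2 h1
    filter_upwards [h2] with z hz hzB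
    exact hz _ hzB rfl
  obtain ⟨t0, ht0B, ht0r⟩ : ∃ t0 : ℝ, Z t0 ∉ B ∧ (t0 : ℂ) ∈ Metric.ball (x : ℂ) r :=
    (((AAY_tend x).eventually hev).and (hballR.filter_mono nhdsWithin_le_nhds)).exists
  have hgood0 : GoodAt Z W t0 := hLC Z W x r x t0 hZd hWd hxr ht0r hgood
    (hreg t0 ht0r).1 (hreg t0 ht0r).2.1 (hreg t0 ht0r).2.2
  have hZa : AnalyticAt ℂ Z t0 := hZd.analyticAt (hopen.mem_nhds ht0r)
  have hWa : AnalyticAt ℂ W t0 := hWd.analyticAt (hopen.mem_nhds ht0r)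
  -- the local sheet
  obtain ⟨⟨ω, hω⟩, huni⟩ := hALO A' B hAC (Z t0) ht0B (W t0) (hA' t0 ht0r)
  have hωW : ∀ᶠ t in 𝓝 (t0 : ℂ), W t = ω (Z t) := by
    have h1 : Tendsto (fun t => (Z t, W t)) (𝓝 (t0 : ℂ)) (𝓝 (Z t0, W t0)) :=
      (hZa.continuousAt.prodMk hWa.continuousAt).tendsto
    filter_upwards [h1.eventually (huni ω hω), hopen.mem_nhds ht0r] with t h2 h3
    exact h2 (hA' t h3)
  have hgood1 : GoodAt Z (fun s => ω (Z s)) t0 := AAY_good hωW hgood0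
  have hAG : AG A' (Z t0) (W t0) :=
    ⟨ω, hω, (hAGR Z ω t0 hZa (hreg t0 ht0r).1 hω.1).1 hgood1⟩
  obtain ⟨m0, hm0⟩ := hAGL A' B hAC (Z t0) ht0B (W t0) ω hAG hω
  have hflex := hAC.flex (Z t0) ht0B ω hω.1 hω.2.2
  have hωa : ∀ᶠ z in 𝓝 (Z t0), AnalyticAt ℂ ω z := hω.1.eventually_analyticAt
  have hWrne : ∀ᶠ z in 𝓝 (Z t0), Wr (fun x => x) ω z ≠ 0 := by
    have h1 : ContinuousAt (deriv (deriv ω)) (Z t0) := hω.1.deriv.deriv.continuousAt
    filter_upwards [h1.eventually_ne hflex.2] with z hz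
    rw [AAY_Wr]
    exact hz
  obtain ⟨r', hr', hball'⟩ := Metric.eventually_nhds_iff_ball.1 (hωa.and (hWrne.and hm0))
  obtain ⟨q0, q1, q2, q3, q4, q5, hq, hqe⟩ := hCQU (fun x => x) ω (Z t0) m0 r' hr'
    differentiableOn_id (fun z hz => (hball' z hz).1.differentiableAt.differentiableWithinAt)
    fun z hz => (hball' z hz).2
  -- back to the oval
  have hback : ∀ᶠ t in 𝓝 (t0 : ℂ), q0 * Z t ^ 2 + q1 * Z t * W t + q2 * W t ^ 2 + q3 * Z t +
      q4 * W t + q5 = 0 := by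
    filter_upwards [hZa.continuousAt.eventually hqe, hωW] with t h1 h2
    rw [h2]
    exact h1
  have hreal : ∀ᶠ t : ℝ in 𝓝 t0, q0 * γ t ^ 2 + q1 * γ t * (starRingEnd ℂ) (γ t) +
      q2 * (starRingEnd ℂ) (γ t) ^ 2 + q3 * γ t + q4 * (starRingEnd ℂ) (γ t) + q5 = 0 := by
    have h1 : ∀ᶠ t : ℝ in 𝓝 t0, (t : ℂ) ∈ Metric.ball (x : ℂ) r :=
      Complex.continuous_ofReal.continuousAt.preimage_mem_nhds (hopen.mem_nhds ht0r)
    filter_upwards [Complex.continuous_ofReal.continuousAt.eventually hback, h1] with t h2 h3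
    rw [(hZW t h3).1, (hZW t h3).2] at h2
    exact h2
  have hall := hAFL γ ρ ho hsm A hA0 hA
    (C (C q0 * X ^ 2 + C q3 * X + C q5) + C (C q1 * X + C q4) * X + C (C q2) * X ^ 2) ⟨t0, by
      filter_upwards [hreal] with t ht
      rw [AAY_ev]
      exact ht⟩
  refine hCEL γ ρ ho q0 q1 q2 q3 q4 q5 hq fun φ => ?_
  have h := hall φ
  rw [AAY_ev] at h
  exact h

end H719FX
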