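import Pool.Agent.H719R4.FX.Alg

/-!
# ABC: Bezout relation for a polynomial of minimal degree in a prime ideal
-/

open Complex Set Filter Topology Polynomial

open scoped Polynomial.Bivariate

namespace H719FX

open H738CZ

/-- pseudo-division by an element of minimal degree of an ideal -/
theorem ABC_div {R : Type*} [CommRing R] [IsDomain R] (J : Ideal (Polynomial R))
    (G : Polynomial R) (hG : G ≠ 0) (hGJ : G ∈ J) (hd : 1 ≤ G.natDegree)
    (hmin : ∀ F ∈ J, F ≠ 0 → G.natDegree ≤ F.natDegree) :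
    ∀ (n : ℕ) (F : Polynomial R), F ∈ J → F.natDegree < n →
      ∃ (b : R) (Q : Polynomial R), b ≠ 0 ∧ Polynomial.C b * F = Q * G := by
  intro n
  induction n with
  | zero => intro F _ h; exact absurd h (Nat.not_lt_zero _)
  | succ n ih =>
    intro F hF hn
    by_cases hF0 : F = 0
    · exact ⟨1, 0, one_ne_zero, by rw [hF0]; simp⟩
    have hle := hmin F hF hF0
    set k := F.natDegree - G.natDegree with hk
    have hlG : G.leadingCoeff ≠ 0 := Polynomial.leadingCoeff_ne_zero.mpr hG
    have hlF : F.leadingCoeff ≠ 0 := Polynomial.leadingCoeff_ne_zero.mpr hF0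
    set P := Polynomial.C G.leadingCoeff * F with hP
    set P' := Polynomial.C F.leadingCoeff * Polynomial.X ^ k * G with hP'
    have hP0 : P ≠ 0 := mul_ne_zero (by simpa using hlG) hF0
    have hP'0 : P' ≠ 0 := mul_ne_zero (mul_ne_zero (by simpa using hlF)
      (pow_ne_zero _ Polynomial.X_ne_zero)) hG
    have hdP : P.natDegree = F.natDegree := Polynomial.natDegree_C_mul hlG
    have hdP' : P'.natDegree = F.natDegree := by
      rw [hP', Polynomial.natDegree_mul (mul_ne_zero (by simpa using hlF)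
        (pow_ne_zero _ Polynomial.X_ne_zero)) hG, Polynomial.natDegree_C_mul_X_pow _ _ hlF]
      omega
    have hdeg : P.degree = P'.degree := by
      rw [Polynomial.degree_eq_natDegree hP0, Polynomial.degree_eq_natDegree hP'0, hdP, hdP']
    have hlc : P.leadingCoeff = P'.leadingCoeff := by
      rw [hP, hP', Polynomial.leadingCoeff_mul, Polynomial.leadingCoeff_mul,
        Polynomial.leadingCoeff_mul, Polynomial.leadingCoeff_C, Polynomial.leadingCoeff_C,
        Polynomial.leadingCoeff_X_pow, mul_one, mul_comm]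
    have hlt := Polynomial.degree_sub_lt_left hdeg hP0 hlc
    have hJ : P - P' ∈ J := J.sub_mem (J.mul_mem_left _ hF) (J.mul_mem_left _ hGJ)
    have hnd : (P - P').natDegree < n := by
      by_cases h0 : P - P' = 0
      · rw [h0, Polynomial.natDegree_zero]
        omega
      · have h1 := Polynomial.natDegree_lt_natDegree h0 hlt
        omega
    obtain ⟨b, Q, hb, hQ⟩ := ih (P - P') hJ hnd
    refine ⟨b * G.leadingCoeff, Q + Polynomial.C b * (Polynomial.C F.leadingCoeff *
      Polynomial.X ^ k), mul_ne_zero hb hlG, ?_⟩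
    rw [Polynomial.C_mul, add_mul, ← hQ, hP, hP']
    ring

theorem tABC : StABC := by
  intro I hI hC A hA hA0 hmin N hN
  set J : Ideal ℂ[X][Y] := Ideal.span {A, N} with hJ
  have hex : ∃ n : ℕ, ∃ F : ℂ[X][Y], F ∈ J ∧ F ≠ 0 ∧ F.natDegree = n :=
    ⟨_, A, Ideal.subset_span (by simp), hA0, rfl⟩
  classical
  obtain ⟨G, hGJ, hG0, hGd⟩ := Nat.find_spec hex
  have hGmin : ∀ F ∈ J, F ≠ 0 → G.natDegree ≤ F.natDegree := by
    intro F hF hF0
    rw [hGd]
    exact Nat.find_min' hex ⟨F, hF, hF0, rfl⟩
  by_cases hd : G.natDegree = 0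
  · obtain ⟨U, V, hUV⟩ := Ideal.mem_span_pair.mp hGJ
    refine ⟨U, V, G.coeff 0, ?_, ?_⟩
    · intro h
      apply hG0
      rw [Polynomial.eq_C_of_natDegree_eq_zero hd, h, Polynomial.C_0]
    · rw [hUV]
      exact Polynomial.eq_C_of_natDegree_eq_zero hd
  · exfalso
    have hd1 : 1 ≤ G.natDegree := Nat.one_le_iff_ne_zero.mpr hd
    obtain ⟨b, Q, hb, hQ⟩ := ABC_div J G hG0 hGJ hd1 hGmin _ A
      (Ideal.subset_span (by simp)) (Nat.lt_succ_self _)
    obtain ⟨b', Q', hb', hQ'⟩ := ABC_div J G hG0 hGJ hd1 hGmin _ N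
      (Ideal.subset_span (by simp)) (Nat.lt_succ_self _)
    have hCb : (Polynomial.C b : ℂ[X][Y]) ≠ 0 := by simpa using hb
    have h1 : Q * G ∈ I := by
      rw [← hQ]
      exact I.mul_mem_left _ hA
    rcases hI.mem_or_mem h1 with h2 | h2
    · have hQ0 : Q ≠ 0 := by
        rintro rfl
        rw [zero_mul] at hQ
        exact mul_ne_zero hCb hA0 hQ
      have h3 := hmin Q h2 hQ0
      have h4 : (Q * G).natDegree = A.natDegree := by
        rw [← hQ]
        exact Polynomial.natDegree_C_mul hb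
      rw [Polynomial.natDegree_mul hQ0 hG0] at h4
      omega
    · have h3 : Polynomial.C b' * N ∈ I := by
        rw [hQ']
        exact I.mul_mem_left _ h2
      rcases hI.mem_or_mem h3 with h4 | h4
      · exact hb' (hC b' h4)
      · exact hN h4

end H719FX
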