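import Pool.Agent.H719R4.FX.Alg

/-!
# Task ABZ: a curve with its exceptional set
-/

open Complex Set Filter Topology Polynomial

open scoped Polynomial.Bivariate

namespace H719FX

open H738CZ

/-- the derivative of the coefficients -/
noncomputable def ABZ_Dx (P : ℂ[X][Y]) : ℂ[X][Y] :=
  ∑ i ∈ Finset.range (P.natDegree + 1), monomial i (derivative (P.coeff i))

theorem ABZ_eval (P : ℂ[X][Y]) (z w : ℂ) :
    P.evalEval z w = ∑ i ∈ Finset.range (P.natDegree + 1), (P.coeff i).eval z * w ^ i := by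
  unfold evalEval
  rw [eval_eq_sum_range (p := P), eval_finsetSum]
  refine Finset.sum_congr rfl fun i _ => ?_
  rw [eval_mul, eval_pow, eval_C]

theorem ABZ_eval_Dx (P : ℂ[X][Y]) (z w : ℂ) :
    (ABZ_Dx P).evalEval z w =
      ∑ i ∈ Finset.range (P.natDegree + 1), (derivative (P.coeff i)).eval z * w ^ i := by
  unfold evalEval ABZ_Dx
  rw [eval_finsetSum, eval_finsetSum]
  refine Finset.sum_congr rfl fun i _ => ?_
  rw [eval_monomial, eval_mul, eval_pow, eval_C]

theorem ABZ_eval_Dy (P : ℂ[X][Y]) (z w : ℂ) :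
    P.derivative.evalEval z w =
      ∑ i ∈ Finset.range (P.natDegree + 1), (P.coeff i).eval z * (i * w ^ (i - 1)) := by
  unfold evalEval
  rw [derivative_eval, sum_over_range _ (by intro n; simp), eval_finsetSum]
  refine Finset.sum_congr rfl fun i _ => ?_
  rw [eval_mul, eval_mul, eval_pow, eval_C]
  simp
  ring

/-- chain rule -/
theorem ABZ_chain (P : ℂ[X][Y]) (Z W : ℂ → ℂ) (t z1 w1 : ℂ) (hZ : HasDerivAt Z z1 t)
    (hW : HasDerivAt W w1 t) : HasDerivAt (fun s => P.evalEval (Z s) (W s))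
      ((ABZ_Dx P).evalEval (Z t) (W t) * z1 + P.derivative.evalEval (Z t) (W t) * w1) t := by
  have h1 : (fun s => P.evalEval (Z s) (W s)) =
      fun s => ∑ i ∈ Finset.range (P.natDegree + 1), (P.coeff i).eval (Z s) * W s ^ i := by
    funext s
    rw [ABZ_eval]
  rw [h1, ABZ_eval_Dx, ABZ_eval_Dy, Finset.sum_mul, Finset.sum_mul, ← Finset.sum_add_distrib]
  refine HasDerivAt.fun_sum fun i _ => ?_
  have h2 : HasDerivAt (fun s => (P.coeff i).eval (Z s)) ((derivative (P.coeff i)).eval (Z t) * z1)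
      t := ((P.coeff i).hasDerivAt (Z t)).comp t hZ
  have h3 : HasDerivAt (fun s => W s ^ i) (i * W t ^ (i - 1) * w1) t := hW.fun_pow i
  have h4 := h2.fun_mul h3
  refine h4.congr_deriv ?_
  ring

/-- the polynomial of the inflection points -/
noncomputable def ABZ_N (A : ℂ[X][Y]) : ℂ[X][Y] :=
  ABZ_Dx (ABZ_Dx A) * A.derivative ^ 2
    - (derivative (ABZ_Dx A) + ABZ_Dx (derivative A)) * ABZ_Dx A * A.derivative
    + derivative (derivative A) * ABZ_Dx A ^ 2

theorem ABZ_eval_N (A : ℂ[X][Y]) (z w : ℂ) : (ABZ_N A).evalEval z w =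
    (ABZ_Dx (ABZ_Dx A)).evalEval z w * A.derivative.evalEval z w ^ 2
    - ((derivative (ABZ_Dx A)).evalEval z w + (ABZ_Dx (derivative A)).evalEval z w)
      * (ABZ_Dx A).evalEval z w * A.derivative.evalEval z w
    + (derivative (derivative A)).evalEval z w * (ABZ_Dx A).evalEval z w ^ 2 := by
  unfold ABZ_N
  simp only [evalEval_add, evalEval_sub, evalEval_mul, evalEval_pow]

theorem ABZ_two (A : ℂ[X][Y]) (Z W : ℂ → ℂ) (t : ℂ) (hZ : AnalyticAt ℂ Z t)
    (hW : AnalyticAt ℂ W t) (h : ∀ᶠ s in 𝓝 t, A.evalEval (Z s) (W s) = 0) :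
    (ABZ_Dx A).evalEval (Z t) (W t) * deriv Z t + A.derivative.evalEval (Z t) (W t) * deriv W t = 0 ∧
      (ABZ_N A).evalEval (Z t) (W t) * deriv Z t ^ 3 =
        - A.derivative.evalEval (Z t) (W t) ^ 3 * Wr Z W t := by
  have h1 : ∀ᶠ s in 𝓝 t, (ABZ_Dx A).evalEval (Z s) (W s) * deriv Z s
      + A.derivative.evalEval (Z s) (W s) * deriv W s = 0 := by
    filter_upwards [hZ.eventually_analyticAt, hW.eventually_analyticAt, h.eventually_nhds]
      with s hs1 hs2 hs3
    have h2 := ABZ_chain A Z W s _ _ hs1.differentiableAt.hasDerivAt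
      hs2.differentiableAt.hasDerivAt
    have h3 : HasDerivAt (fun s => A.evalEval (Z s) (W s)) 0 s :=
      (hasDerivAt_const s (0 : ℂ)).congr_of_eventuallyEq hs3
    exact h2.unique h3
  have h4 := h1.self_of_nhds
  refine ⟨h4, ?_⟩
  have hZ' : HasDerivAt Z (deriv Z t) t := hZ.differentiableAt.hasDerivAt
  have hW' : HasDerivAt W (deriv W t) t := hW.differentiableAt.hasDerivAt
  have hZ2 : HasDerivAt (deriv Z) (deriv (deriv Z) t) t := hZ.deriv.differentiableAt.hasDerivAt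
  have hW2 : HasDerivAt (deriv W) (deriv (deriv W) t) t := hW.deriv.differentiableAt.hasDerivAt
  have h5 := ((ABZ_chain (ABZ_Dx A) Z W t _ _ hZ' hW').fun_mul hZ2).fun_add
    ((ABZ_chain (derivative A) Z W t _ _ hZ' hW').fun_mul hW2)
  have h6 : HasDerivAt (fun s => (ABZ_Dx A).evalEval (Z s) (W s) * deriv Z s
      + A.derivative.evalEval (Z s) (W s) * deriv W s) 0 t :=
    (hasDerivAt_const t (0 : ℂ)).congr_of_eventuallyEq h1
  have h7 := h5.unique h6
  rw [ABZ_eval_N]
  unfold Wr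
  generalize (ABZ_Dx (ABZ_Dx A)).evalEval (Z t) (W t) = axx at *
  generalize (derivative (ABZ_Dx A)).evalEval (Z t) (W t) = axy at *
  generalize (ABZ_Dx (derivative A)).evalEval (Z t) (W t) = ayx at *
  generalize (derivative (derivative A)).evalEval (Z t) (W t) = ayy at *
  generalize (ABZ_Dx A).evalEval (Z t) (W t) = ax at *
  generalize A.derivative.evalEval (Z t) (W t) = ay at *
  generalize deriv (deriv Z) t = z2 at *
  generalize deriv (deriv W) t = w2 at *
  generalize deriv Z t = z1 at *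
  generalize deriv W t = w1 at *
  linear_combination z1 * ay ^ 2 * h7
    + (-(axy + ayx) * ay * z1 ^ 2 + ayy * z1 * (ax * z1 - ay * w1) - ay ^ 2 * z2) * h4

/-- the ideal of a parametrised curve -/
noncomputable def ABZ_I (Z W : ℂ → ℂ) (U : Set ℂ) : Ideal ℂ[X][Y] :=
  RingHom.ker (RingHom.pi (fun t : U => evalEvalRingHom (Z t) (W t)))

theorem ABZ_mem (Z W : ℂ → ℂ) (U : Set ℂ) (P : ℂ[X][Y]) :
    P ∈ ABZ_I Z W U ↔ ∀ t ∈ U, P.evalEval (Z t) (W t) = 0 := by
  unfold ABZ_I
  rw [RingHom.mem_ker]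
  constructor
  · intro h t ht
    exact congr_fun h ⟨t, ht⟩
  · intro h
    funext t
    exact h t.1 t.2

theorem ABZ_diff (P : ℂ[X][Y]) (Z W : ℂ → ℂ) (U : Set ℂ) (hU : IsOpen U)
    (hZ : DifferentiableOn ℂ Z U) (hW : DifferentiableOn ℂ W U) :
    AnalyticOnNhd ℂ (fun s => P.evalEval (Z s) (W s)) U := by
  apply DifferentiableOn.analyticOnNhd _ hU
  intro t ht
  exact (ABZ_chain P Z W t _ _ (hZ.differentiableAt (hU.mem_nhds ht)).hasDerivAt
    (hW.differentiableAt (hU.mem_nhds ht)).hasDerivAt).differentiableAt.differentiableWithinAt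

theorem ABZ_prime (Z W : ℂ → ℂ) (U : Set ℂ) (hU : IsOpen U) (hc : IsPreconnected U)
    (hne : U.Nonempty) (hZ : DifferentiableOn ℂ Z U) (hW : DifferentiableOn ℂ W U) :
    (ABZ_I Z W U).IsPrime := by
  refine ⟨?_, ?_⟩
  · intro h
    obtain ⟨t, ht⟩ := hne
    have h1 : (1 : ℂ[X][Y]) ∈ ABZ_I Z W U := by rw [h]; trivial
    have h2 := (ABZ_mem Z W U 1).mp h1 t ht
    rw [evalEval_one] at h2
    exact one_ne_zero h2
  · intro P Q hPQ
    rw [ABZ_mem] at hPQ
    rw [ABZ_mem, ABZ_mem]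
    refine AnalyticOnNhd.eq_zero_or_eq_zero_of_mul_eq_zero (ABZ_diff P Z W U hU hZ hW)
      (ABZ_diff Q Z W U hU hZ hW) ?_ hc
    intro t ht
    have h1 := hPQ t ht
    rw [evalEval_mul] at h1
    exact h1

theorem ABZ_const (Z W : ℂ → ℂ) (U : Set ℂ) (hU : IsOpen U) (hne : U.Nonempty)
    (hZ : DifferentiableOn ℂ Z U) (h1 : ∀ t ∈ U, deriv Z t ≠ 0) (n : ℕ) :
    ∀ a : ℂ[X], a.natDegree = n → (∀ t ∈ U, a.eval (Z t) = 0) → a = 0 := by
  induction n with
  | zero =>
    intro a ha h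
    obtain ⟨t, ht⟩ := hne
    rw [eq_C_of_natDegree_eq_zero ha] at h ⊢
    have h2 := h t ht
    rw [eval_C] at h2
    rw [h2, C_0]
  | succ n ih =>
    intro a ha h
    exfalso
    have h2 : derivative a = 0 := by
      have h3 : (derivative a).natDegree = n := by
        rw [natDegree_derivative, ha]
        rfl
      apply ih _ h3
      intro t ht
      have h4 : HasDerivAt Z (deriv Z t) t := (hZ.differentiableAt (hU.mem_nhds ht)).hasDerivAt
      have h5 : HasDerivAt (fun s => a.eval (Z s)) ((derivative a).eval (Z t) * deriv Z t) t :=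
        (a.hasDerivAt (Z t)).comp t h4
      have h6 : HasDerivAt (fun s => a.eval (Z s)) 0 t := by
        refine (hasDerivAt_const t (0 : ℂ)).congr_of_eventuallyEq ?_
        filter_upwards [hU.mem_nhds ht] with s hs
        exact h s hs
      exact (mul_eq_zero.mp (h5.unique h6)).resolve_right (h1 t ht)
    have h7 := derivative_eq_zero.mp h2
    omega

theorem tABZ (hABC : StABC) : StABZ := by
  intro A hA Z W c r hr hZ hW h
  set U := Metric.ball c r with hU
  have hUo : IsOpen U := Metric.isOpen_ball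
  have hUc : IsPreconnected U := (convex_ball c r).isPreconnected
  have hUn : U.Nonempty := ⟨c, Metric.mem_ball_self hr⟩
  have hI := ABZ_prime Z W U hUo hUc hUn hZ hW
  have hconst : ∀ a : ℂ[X], (C a : ℂ[X][Y]) ∈ ABZ_I Z W U → a = 0 := by
    intro a ha
    rw [ABZ_mem] at ha
    refine ABZ_const Z W U hUo hUn hZ (fun t ht => (h t ht).1) a.natDegree a rfl fun t ht => ?_
    have h1 := ha t ht
    rwa [evalEval_C] at h1
  have hex : ∃ n : ℕ, ∃ P ∈ ABZ_I Z W U, P ≠ 0 ∧ P.natDegree = n :=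
    ⟨A.natDegree, A, (ABZ_mem _ _ _ _).mpr fun t ht => (h t ht).2.2.2, hA, rfl⟩
  classical
  obtain ⟨A', hA'I, hA'0, hA'n⟩ := Nat.find_spec hex
  have hmin : ∀ P ∈ ABZ_I Z W U, P ≠ 0 → A'.natDegree ≤ P.natDegree := by
    intro P hP hP0
    rw [hA'n]
    exact Nat.find_min' hex ⟨P, hP, hP0, rfl⟩
  have hA'Z := (ABZ_mem _ _ _ _).mp hA'I
  have hdeg : 0 < A'.natDegree := by
    rcases Nat.eq_zero_or_pos A'.natDegree with h0 | h0
    · exfalso
      have h1 := eq_C_of_natDegree_eq_zero h0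
      rw [h1] at hA'I
      have h2 := hconst _ hA'I
      rw [h2, C_0] at h1
      exact hA'0 h1
    · exact h0
  have hAy : derivative A' ∉ ABZ_I Z W U := by
    intro h1
    have h2 : derivative A' ≠ 0 := by
      intro h3
      have h4 := derivative_eq_zero.mp h3
      omega
    have h3 := hmin _ h1 h2
    have h4 := natDegree_derivative_lt (p := A') (by omega)
    omega
  have htwo : ∀ t ∈ U, (ABZ_Dx A').evalEval (Z t) (W t) * deriv Z t
      + A'.derivative.evalEval (Z t) (W t) * deriv W t = 0 ∧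
      (ABZ_N A').evalEval (Z t) (W t) * deriv Z t ^ 3 =
        - A'.derivative.evalEval (Z t) (W t) ^ 3 * Wr Z W t := by
    intro t ht
    apply ABZ_two A' Z W t (hZ.analyticAt (hUo.mem_nhds ht)) (hW.analyticAt (hUo.mem_nhds ht))
    filter_upwards [hUo.mem_nhds ht] with s hs
    exact hA'Z s hs
  have hAx : ABZ_Dx A' ∉ ABZ_I Z W U := by
    intro h1
    apply hAy
    rw [ABZ_mem] at h1 ⊢
    intro t ht
    have h2 := (htwo t ht).1
    rw [h1 t ht, zero_mul, zero_add] at h2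
    exact (mul_eq_zero.mp h2).resolve_right (h t ht).2.1
  have hN : ABZ_N A' ∉ ABZ_I Z W U := by
    intro h1
    apply hAy
    rw [ABZ_mem] at h1 ⊢
    intro t ht
    have h2 := (htwo t ht).2
    rw [h1 t ht, zero_mul] at h2
    have h3 := (mul_eq_zero.mp h2.symm).resolve_right (h t ht).2.2.1
    exact pow_eq_zero_iff (by norm_num : (3 : ℕ) ≠ 0) |>.mp (neg_eq_zero.mp h3)
  obtain ⟨U1, V1, D1, hD1, e1⟩ := hABC _ hI hconst A' hA'I hA'0 hmin _ hAy
  obtain ⟨U2, V2, D2, hD2, e2⟩ := hABC _ hI hconst A' hA'I hA'0 hmin _ hAx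
  obtain ⟨U3, V3, D3, hD3, e3⟩ := hABC _ hI hconst A' hA'I hA'0 hmin _ hN
  have hkey : ∀ (U V N : ℂ[X][Y]) (D : ℂ[X]), U * A' + V * N = C D → ∀ z w : ℂ,
      D.eval z ≠ 0 → A'.evalEval z w = 0 → N.evalEval z w ≠ 0 := by
    intro U V N D e z w hD h0 h1
    have h2 : (U * A' + V * N).evalEval z w = (C D : ℂ[X][Y]).evalEval z w := by rw [e]
    rw [evalEval_add, evalEval_mul, evalEval_mul, h0, h1, evalEval_C, mul_zero, mul_zero,
      add_zero] at h2
    exact hD h2.symm
  set Q : ℂ[X] := D1 * D2 * D3 * A'.leadingCoeff with hQ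
  have hQ0 : Q ≠ 0 := mul_ne_zero (mul_ne_zero (mul_ne_zero hD1 hD2) hD3)
    (leadingCoeff_ne_zero.mpr hA'0)
  have hB : ∀ z ∉ {z : ℂ | Q.IsRoot z}, D1.eval z ≠ 0 ∧ D2.eval z ≠ 0 ∧ D3.eval z ≠ 0 ∧
      A'.leadingCoeff.eval z ≠ 0 := by
    intro z hz
    have h1 : Q.eval z ≠ 0 := hz
    rw [hQ, eval_mul, eval_mul, eval_mul] at h1
    refine ⟨?_, ?_, ?_, ?_⟩
    · intro h2
      apply h1
      rw [h2]
      ring
    · intro h2
      apply h1
      rw [h2]
      ring
    · intro h2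
      apply h1
      rw [h2]
      ring
    · intro h2
      apply h1
      rw [h2]
      ring
  refine ⟨A', {z : ℂ | Q.IsRoot z}, ⟨finite_setOfPred_isRoot hQ0, hdeg, ?_, ?_, ?_⟩, hA'Z⟩
  · intro z hz
    exact (hB z hz).2.2.2
  · intro z hz w hw
    exact hkey _ _ _ _ e1 z w (hB z hz).1 hw
  · intro z hz ω hω hev
    have h0 : A'.evalEval z (ω z) = 0 := hev.self_of_nhds
    have hx := hkey _ _ _ _ e2 z (ω z) (hB z hz).2.1 h0
    have hn := hkey _ _ _ _ e3 z (ω z) (hB z hz).2.2.1 h0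
    obtain ⟨h1, h2⟩ := ABZ_two A' (fun x => x) ω z analyticAt_id hω hev
    have hd1 : deriv (fun x : ℂ => x) z = 1 := by
      rw [deriv_id'']
    have hd2 : deriv (deriv (fun x : ℂ => x)) z = 0 := by
      rw [deriv_id'']
      exact deriv_const z 1
    unfold Wr at h2
    rw [hd1] at h1 h2
    rw [hd2] at h2
    refine ⟨?_, ?_⟩
    · intro h3
      apply hx
      rw [h3, mul_one, mul_zero, add_zero] at h1
      exact h1
    · intro h3
      apply hn
      rw [h3] at h2
      have h4 : (ABZ_N A').evalEval z (ω z) = (ABZ_N A').evalEval z (ω z) * 1 ^ 3 := by ring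
      rw [h4, h2]
      ring

end H719FX
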