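import Pool.Agent.H719R4.FX.Alg
import Mathlib.Topology.Homotopy.Lifting
import Mathlib.Analysis.Convex.Contractible

/-! ACV: lifting in convex sets, by the theory of covering maps. -/

open Complex Set Filter Topology Polynomial

open scoped Polynomial.Bivariate

namespace H719FX

open H738CZ

/-- the curve, as a space over the `z`-plane -/
def ACV_E (A : ℂ[X][Y]) : Type := {e : ℂ × ℂ // A.evalEval e.1 e.2 = 0}

noncomputable instance (A : ℂ[X][Y]) : TopologicalSpace (ACV_E A) :=
  inferInstanceAs (TopologicalSpace {e : ℂ × ℂ // A.evalEval e.1 e.2 = 0})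

noncomputable def ACV_p (A : ℂ[X][Y]) : ACV_E A → ℂ := fun e => e.1.1

lemma ACV_pc (A : ℂ[X][Y]) : Continuous (ACV_p A) :=
  continuous_fst.comp continuous_subtype_val

noncomputable def ACV_w (A : ℂ[X][Y]) : ACV_E A → ℂ := fun e => e.1.2

lemma ACV_wc (A : ℂ[X][Y]) : Continuous (ACV_w A) :=
  continuous_snd.comp continuous_subtype_val

lemma ACV_cov (hASH : StASH) (A : ℂ[X][Y]) (B : Set ℂ) (h : ACurve A B) :
    IsCoveringMapOn (ACV_p A) Bᶜ := by
  intro x hx
  obtain ⟨r, n, ω, hr, hsub, hd, hne, hall⟩ := hASH A B h x hx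
  apply IsEvenlyCovered.to_isEvenlyCovered_preimage (I := Fin n)
  have hc : ∀ i, ContinuousOn (ω i) (Metric.ball x r) := fun i => (hd i).continuousOn
  -- the index
  have hex : ∀ e : (ACV_p A) ⁻¹' Metric.ball x r, ∃ i, ω i (ACV_p A e.1) = ACV_w A e.1 := by
    rintro ⟨e, he⟩
    exact (hall _ he _).1 e.2
  choose idx hidx using hex
  have huniq : ∀ (e : (ACV_p A) ⁻¹' Metric.ball x r) (i : Fin n),
      ω i (ACV_p A e.1) = ACV_w A e.1 → idx e = i := by
    intro e i hi
    by_contra hcon
    exact hne _ _ hcon _ e.2 ((hidx e).trans hi.symm)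
  have hcomp : ∀ i, Continuous fun e : (ACV_p A) ⁻¹' Metric.ball x r => ω i (ACV_p A e.1) := by
    intro i
    exact (hc i).comp_continuous ((ACV_pc A).comp continuous_subtype_val) fun e => e.2
  have hclosed : ∀ i, IsClosed {e : (ACV_p A) ⁻¹' Metric.ball x r | idx e = i} := by
    intro i
    have : {e : (ACV_p A) ⁻¹' Metric.ball x r | idx e = i}
        = {e | ω i (ACV_p A e.1) = ACV_w A e.1} := by
      ext e
      constructor
      · intro he
        have he' : idx e = i := he
        show ω i (ACV_p A e.1) = ACV_w A e.1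
        rw [← he']
        exact hidx e
      · intro he
        exact huniq e i he
    rw [this]
    exact isClosed_eq (hcomp i) ((ACV_wc A).comp continuous_subtype_val)
  have hidxc : Continuous idx := by
    rw [continuous_iff_isClosed]
    intro s _
    have : idx ⁻¹' s = ⋃ i ∈ s, {e | idx e = i} := by
      ext e
      simp
    rw [this]
    exact Set.Finite.isClosed_biUnion (Set.toFinite s) fun i _ => hclosed i
  have hinvE : ∀ zi : (Metric.ball x r) × Fin n,
      A.evalEval (zi.1 : ℂ) (ω zi.2 (zi.1 : ℂ)) = 0 := fun zi => (hall _ zi.1.2 _).2 ⟨_, rfl⟩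
  refine ⟨inferInstance, Metric.ball x r, Metric.mem_ball_self hr, Metric.isOpen_ball,
    Metric.isOpen_ball.preimage (ACV_pc A), ?_⟩
  refine ⟨{ toFun := fun e => (⟨ACV_p A e.1, e.2⟩, idx e)
            invFun := fun zi => ⟨⟨((zi.1 : ℂ), ω zi.2 (zi.1 : ℂ)), hinvE zi⟩, zi.1.2⟩
            left_inv := ?_
            right_inv := ?_
            continuous_toFun := ?_
            continuous_invFun := ?_ }, fun e => rfl⟩
  · intro e
    apply Subtype.ext
    apply Subtype.ext
    exact Prod.ext rfl (hidx e)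
  · rintro ⟨z, i⟩
    refine Prod.ext rfl ?_
    exact huniq _ i rfl
  · exact Continuous.prodMk
      (Continuous.subtype_mk ((ACV_pc A).comp continuous_subtype_val) _) hidxc
  · refine Continuous.subtype_mk (Continuous.subtype_mk ?_ _) _
    refine Continuous.prodMk (continuous_subtype_val.comp continuous_fst) ?_
    rw [continuous_iff_continuousAt]
    rintro ⟨z, i⟩
    have h1 : (fun zi : (Metric.ball x r) × Fin n => ω zi.2 (zi.1 : ℂ))
        =ᶠ[𝓝 (z, i)] fun zi => ω i (zi.1 : ℂ) := by
      have : ∀ᶠ zi : (Metric.ball x r) × Fin n in 𝓝 (z, i), zi.2 = i := by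
        have h2 : Tendsto (fun zi : (Metric.ball x r) × Fin n => zi.2) (𝓝 (z, i)) (𝓝 i) :=
          continuous_snd.tendsto _
        exact h2 ((isOpen_discrete {i}).mem_nhds rfl)
      filter_upwards [this] with zi hzi
      rw [hzi]
    refine ContinuousAt.congr ?_ h1.symm
    exact ((hc i).comp_continuous (continuous_subtype_val.comp continuous_fst)
      fun zi => zi.1.2).continuousAt

theorem tACV (hALO : StALO) (hASH : StASH) : StACV := by
  intro A B h U f hU hcx hf hfB a ha w hw
  have hcov := ACV_cov hASH A B h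
  have : ContractibleSpace U := hcx.contractibleSpace ⟨a, ha⟩
  have : SimplyConnectedSpace U := inferInstance
  have : LocallyPathConnectedSpace U := hU.locallyPathConnectedSpace
  let f' : C(U, ℂ) := ⟨fun x => f x, hf.continuousOn.comp_continuous continuous_subtype_val
    fun x => x.2⟩
  let e0 : ACV_E A := ⟨(f a, w), hw⟩
  obtain ⟨F, ⟨hF1, hF2⟩, -⟩ := hcov.existsUnique_continuousMap_lifts f' (a₀ := ⟨a, ha⟩)
    (e₀ := e0) rfl (fun x => hfB x x.2)
  classical
  have hFp : ∀ x : U, ACV_p A (F x) = f x := fun x => congrFun hF2 x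
  let g : ℂ → ℂ := fun x => if hx : x ∈ U then ACV_w A (F ⟨x, hx⟩) else 0
  have hg : ∀ x (hx : x ∈ U), g x = ACV_w A (F ⟨x, hx⟩) := fun x hx => dif_pos hx
  have hroot : ∀ x ∈ U, A.evalEval (f x) (g x) = 0 := by
    intro x hx
    rw [hg x hx, ← hFp ⟨x, hx⟩]
    exact (F ⟨x, hx⟩).2
  have hgc : ContinuousOn g U := by
    rw [continuousOn_iff_continuous_domRestrict]
    have : U.domRestrict g = fun x => ACV_w A (F x) := by
      funext x
      exact hg x x.2
    rw [this]
    exact (ACV_wc A).comp F.continuous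
  refine ⟨g, ?_, ?_, hroot⟩
  · intro x1 hx1
    obtain ⟨⟨ω, hω⟩, -⟩ := hALO A B h (f x1) (hfB x1 hx1) (g x1) (hroot x1 hx1)
    have hun := (hALO A B h (f x1) (hfB x1 hx1) (g x1) (hroot x1 hx1)).2 ω hω
    have hfa : ContinuousAt f x1 := (hf.continuousOn).continuousAt (hU.mem_nhds hx1)
    have hga : ContinuousAt g x1 := hgc.continuousAt (hU.mem_nhds hx1)
    have ht : Tendsto (fun x => (f x, g x)) (𝓝 x1) (𝓝 (f x1, g x1)) :=
      hfa.prodMk_nhds hga
    have hev : g =ᶠ[𝓝 x1] fun x => ω (f x) := by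
      filter_upwards [ht.eventually hun, hU.mem_nhds hx1] with x hx hxU
      exact hx (hroot x hxU)
    have hfd : DifferentiableAt ℂ f x1 := (hf x1 hx1).differentiableAt (hU.mem_nhds hx1)
    have : DifferentiableAt ℂ (fun x => ω (f x)) x1 :=
      DifferentiableAt.comp x1 hω.1.differentiableAt hfd
    exact (this.congr_of_eventuallyEq hev).differentiableWithinAt
  · rw [hg a ha, hF1]
    rfl

end H719FX
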