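import Pool.Agent.H719R4.FX.Alg2

open Complex Set Filter Topology Polynomial
open scoped Polynomial.Bivariate ContDiff

namespace H719FX

open H738CZ

theorem AFR_main (A q : ℂ[X][Y]) (hA : 0 < A.natDegree) : ∃ R H : ℂ[X][Y], R ≠ 0 ∧
    R.comp q = A * H := by
  let K := FractionRing ℂ[X]
  let ι : ℂ[X] →+* K := algebraMap ℂ[X] K
  have hι : Function.Injective ι := IsFractionRing.injective ℂ[X] K
  have hA0 : A ≠ 0 := fun h => by rw [h, natDegree_zero] at hA; exact lt_irrefl _ hA
  have hA1 : A.map ι ≠ 0 := (Polynomial.map_ne_zero_iff hι).2 hA0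
  have : Module.Finite K (AdjoinRoot (A.map ι)) := (AdjoinRoot.powerBasis hA1).finite
  obtain ⟨r, hr, hr0⟩ := IsIntegral.of_finite K (AdjoinRoot.mk (A.map ι) (q.map ι))
  have h1 : AdjoinRoot.mk (A.map ι) (r.comp (q.map ι)) = 0 := by
    rw [← hr0, Polynomial.comp, Polynomial.hom_eval₂]
    rfl
  obtain ⟨h, hh⟩ := AdjoinRoot.mk_eq_zero.1 h1
  obtain ⟨b, hbm, hb⟩ := IsLocalization.integerNormalization_spec (nonZeroDivisors ℂ[X]) r
  obtain ⟨b', hbm', hb'⟩ := IsLocalization.integerNormalization_spec (nonZeroDivisors ℂ[X]) h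
  set R0 := IsLocalization.integerNormalization (nonZeroDivisors ℂ[X]) r
  set H0 := IsLocalization.integerNormalization (nonZeroDivisors ℂ[X]) h
  have hb1 : R0.map ι = C (ι b) * r := by
    rw [hb]
    ext i
    rw [coeff_smul, coeff_C_mul, Algebra.smul_def]
  have hb1' : H0.map ι = C (ι b') * h := by
    rw [hb']
    ext i
    rw [coeff_smul, coeff_C_mul, Algebra.smul_def]
  have hbne : b ≠ 0 := nonZeroDivisors.ne_zero hbm
  have hbne' : b' ≠ 0 := nonZeroDivisors.ne_zero hbm'
  have hR0 : R0 ≠ 0 := by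
    intro h0
    rw [h0, Polynomial.map_zero] at hb1
    have h2 : C (ι b) ≠ 0 := by
      rw [Ne, C_eq_zero]
      exact fun h3 => hbne (hι (by rw [h3, map_zero]))
    exact mul_ne_zero h2 hr.ne_zero hb1.symm
  refine ⟨C b' * R0, C b * H0, mul_ne_zero (by rwa [Ne, C_eq_zero]) hR0, ?_⟩
  apply Polynomial.map_injective ι hι
  rw [Polynomial.map_comp, Polynomial.map_mul, Polynomial.map_mul, Polynomial.map_mul, map_C, map_C,
    hb1, hb1', mul_comp, C_comp, mul_comp, C_comp, hh]
  ring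

/-- AFR (helper318). -/
theorem tAFR : StAFR := fun A q hA => AFR_main A q hA

end H719FX
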