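import Pool.Agent.H719R4.FX.Alg

/-!
# AGL: the affine curvature of a good sheet is constant
-/

open Complex Set Filter Topology Polynomial

open scoped Polynomial.Bivariate

namespace H719FX

open H738CZ

/-- curvature of a sheet -/
noncomputable def AGL_R (ω : ℂ → ℂ) (z : ℂ) : ℂ :=
  Mi (fun x => x) ω z ^ 3 / Wr (fun x => x) ω z ^ 8

open Classical in
/-- curvature of the sheet through `(z, w)` -/
noncomputable def AGL_mu (A : ℂ[X][Y]) (z w : ℂ) : ℂ :=
  if h : ∃ ω, Sheet A ω z w then AGL_R h.choose z else 0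

/-- the product over the good points above `z` -/
noncomputable def AGL_P (A : ℂ[X][Y]) (c z : ℂ) : ℂ := ∏ᶠ w ∈ {w | AG A z w}, (AGL_mu A z w - c)

theorem AGL_germ {ω ω' : ℂ → ℂ} {z : ℂ} (h : ω =ᶠ[𝓝 z] ω') :
    Wr (fun x => x) ω z = Wr (fun x => x) ω' z ∧ Mi (fun x => x) ω z = Mi (fun x => x) ω' z := by
  have h1 := h.deriv
  have h2 := h1.deriv
  have h3 := h2.deriv
  have hW : Wr (fun x => x) ω =ᶠ[𝓝 z] Wr (fun x => x) ω' := by
    filter_upwards [h1, h2] with t a b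
    unfold Wr
    rw [a, b]
  have hW1 := hW.deriv
  have hW2 := hW1.deriv
  refine ⟨hW.eq_of_nhds, ?_⟩
  unfold Mi
  rw [hW.eq_of_nhds, hW1.eq_of_nhds, hW2.eq_of_nhds, h2.eq_of_nhds, h3.eq_of_nhds]

theorem AGL_zero {A : ℂ[X][Y]} {ω : ℂ → ℂ} {z w : ℂ} (h : Sheet A ω z w) :
    A.evalEval z w = 0 := by
  have := h.2.2.self_of_nhds
  rwa [h.2.1] at this

theorem AGL_uniq (hALO : StALO) {A : ℂ[X][Y]} {B : Set ℂ} (hC : ACurve A B) {z w : ℂ}
    (hz : z ∉ B) {ω ω' : ℂ → ℂ} (h : Sheet A ω z w) (h' : Sheet A ω' z w) : ω' =ᶠ[𝓝 z] ω := by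
  have h1 := (hALO A B hC z hz w (AGL_zero h)).2 ω h
  have ht : Tendsto (fun x => (x, ω' x)) (𝓝 z) (𝓝 (z, w)) := by
    have h2 : ContinuousAt ω' z := h'.1.continuousAt
    have h3 : Tendsto ω' (𝓝 z) (𝓝 w) := by
      have := h2.tendsto
      rwa [h'.2.1] at this
    exact tendsto_id.prodMk_nhds h3
  filter_upwards [ht.eventually h1, h'.2.2] with x hx hx'
  exact hx hx'

theorem AGL_R_congr {ω ω' : ℂ → ℂ} {z : ℂ} (h : ω =ᶠ[𝓝 z] ω') : AGL_R ω z = AGL_R ω' z := by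
  unfold AGL_R
  rw [(AGL_germ h).1, (AGL_germ h).2]

theorem AGL_mu_eq (hALO : StALO) {A : ℂ[X][Y]} {B : Set ℂ} (hC : ACurve A B) {z w : ℂ}
    (hz : z ∉ B) {ω : ℂ → ℂ} (h : Sheet A ω z w) : AGL_mu A z w = AGL_R ω z := by
  have hex : ∃ ω, Sheet A ω z w := ⟨ω, h⟩
  unfold AGL_mu
  rw [dif_pos hex]
  exact AGL_R_congr (AGL_uniq hALO hC hz h hex.choose_spec)

theorem AGL_anW {ω : ℂ → ℂ} {z : ℂ} (h : AnalyticAt ℂ ω z) :
    AnalyticAt ℂ (Wr (fun x => x) ω) z := by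
  have hid : AnalyticAt ℂ (fun x : ℂ => x) z := analyticAt_id
  exact (hid.deriv.mul h.deriv.deriv).sub (hid.deriv.deriv.mul h.deriv)

theorem AGL_anM {ω : ℂ → ℂ} {z : ℂ} (h : AnalyticAt ℂ ω z) :
    AnalyticAt ℂ (Mi (fun x => x) ω) z := by
  have hid : AnalyticAt ℂ (fun x : ℂ => x) z := analyticAt_id
  have hW := AGL_anW h
  have h1 : AnalyticAt ℂ (fun t => (5 / 9 : ℂ) * (deriv (Wr (fun x => x) ω) t) ^ 2) z :=
    analyticAt_const.mul (hW.deriv.pow 2)
  have h2 : AnalyticAt ℂ (fun t => (1 / 3 : ℂ) * deriv (deriv (Wr (fun x => x) ω)) t *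
      Wr (fun x => x) ω t) z := (analyticAt_const.mul hW.deriv.deriv).mul hW
  have h3 : AnalyticAt ℂ (fun t => (deriv (deriv (fun x : ℂ => x)) t * deriv (deriv (deriv ω)) t
        - deriv (deriv (deriv (fun x : ℂ => x))) t * deriv (deriv ω) t) *
          Wr (fun x => x) ω t) z :=
    ((hid.deriv.deriv.mul h.deriv.deriv.deriv).sub
      (hid.deriv.deriv.deriv.mul h.deriv.deriv)).mul hW
  exact (h1.sub h2).sub h3

theorem AGL_Wr_ne {A : ℂ[X][Y]} {B : Set ℂ} (hC : ACurve A B) {z w : ℂ}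
    (hz : z ∉ B) {ω : ℂ → ℂ} (h : Sheet A ω z w) : Wr (fun x => x) ω z ≠ 0 := by
  have := (hC.flex z hz ω h.1 h.2.2).2
  unfold Wr
  simpa using this

theorem AGL_R_an {A : ℂ[X][Y]} {B : Set ℂ} (hC : ACurve A B) {z w : ℂ}
    (hz : z ∉ B) {ω : ℂ → ℂ} (h : Sheet A ω z w) : AnalyticAt ℂ (AGL_R ω) z :=
  ((AGL_anM h.1).pow 3).div ((AGL_anW h.1).pow 8) (pow_ne_zero _ (AGL_Wr_ne hC hz h))

theorem AGL_local (hALO : StALO) (hASH : StASH) (hAGS : StAGS) {A : ℂ[X][Y]} {B : Set ℂ}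
    (hC : ACurve A B) {z1 : ℂ} (hz1 : z1 ∉ B) :
    ∃ (r : ℝ) (n : ℕ) (ω : Fin n → ℂ → ℂ) (J : Finset (Fin n)), 0 < r ∧
      Metric.ball z1 r ⊆ Bᶜ ∧
      (∀ i, ∀ z ∈ Metric.ball z1 r, Sheet A (ω i) z (ω i z)) ∧
      (∀ z ∈ Metric.ball z1 r, ∀ w, AG A z w ↔ ∃ i ∈ J, ω i z = w) ∧
      (∀ c, ∀ z ∈ Metric.ball z1 r, AGL_P A c z = ∏ i ∈ J, (AGL_R (ω i) z - c)) := by
  classical
  obtain ⟨r, n, ω, hr, hB, hd, hne, hcov⟩ := hASH A B hC z1 hz1
  have hz1b : z1 ∈ Metric.ball z1 r := Metric.mem_ball_self hr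
  have hsheet : ∀ i, ∀ z ∈ Metric.ball z1 r, Sheet A (ω i) z (ω i z) := by
    intro i z hz
    refine ⟨(hd i).analyticAt (Metric.isOpen_ball.mem_nhds hz), rfl, ?_⟩
    filter_upwards [Metric.isOpen_ball.mem_nhds hz] with x hx
    exact (hcov x hx (ω i x)).2 ⟨i, rfl⟩
  have hAG : ∀ i, ∀ a ∈ Metric.ball z1 r, ∀ b ∈ Metric.ball z1 r, AG A a (ω i a) →
      AG A b (ω i b) := by
    intro i a ha b hb h
    refine (hAGS A B hC (Metric.ball z1 r) (fun x => x) (ω i) Metric.isOpen_ball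
      (convex_ball z1 r) differentiableOn_id (hd i) (fun x hx => ⟨?_, hB hx, ?_⟩) a ha h b hb).1
    · simp
    · exact (hcov x hx (ω i x)).2 ⟨i, rfl⟩
  set J : Finset (Fin n) := Finset.univ.filter fun i => AG A z1 (ω i z1) with hJ
  have hiff : ∀ z ∈ Metric.ball z1 r, ∀ w, AG A z w ↔ ∃ i ∈ J, ω i z = w := by
    intro z hz w
    constructor
    · intro h
      obtain ⟨ω', hs, -⟩ := id h
      obtain ⟨i, hi⟩ := (hcov z hz w).1 (AGL_zero hs)
      refine ⟨i, ?_, hi⟩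
      rw [hJ, Finset.mem_filter]
      refine ⟨Finset.mem_univ _, hAG i z hz z1 hz1b ?_⟩
      rwa [hi]
    · rintro ⟨i, hi, rfl⟩
      rw [hJ, Finset.mem_filter] at hi
      exact hAG i z1 hz1b z hz hi.2
  refine ⟨r, n, ω, J, hr, hB, hsheet, hiff, fun c z hz => ?_⟩
  have hset : {w | AG A z w} = ((J.image fun i => ω i z : Finset ℂ) : Set ℂ) := by
    ext w
    rw [Finset.coe_image, Set.mem_image]
    exact hiff z hz w
  unfold AGL_P
  rw [hset, finprod_mem_coe_finset, Finset.prod_image]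
  · refine Finset.prod_congr rfl fun i _ => ?_
    rw [AGL_mu_eq hALO hC (hB hz) (hsheet i z hz)]
  · intro i _ j _ hij
    by_contra hc
    exact hne i j hc z hz hij

theorem AGL_card {A : ℂ[X][Y]} {B : Set ℂ} (hC : ACurve A B) {z : ℂ} (hz : z ∉ B) :
    ∃ h : {w | AG A z w}.Finite, h.toFinset.card ≤ A.natDegree := by
  classical
  set Az : ℂ[X] := A.map (evalRingHom z) with hAz
  have hne : Az ≠ 0 := by
    intro h0
    have h1 : Az.coeff A.natDegree = 0 := by rw [h0, Polynomial.coeff_zero]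
    rw [hAz, Polynomial.coeff_map] at h1
    exact hC.lead z hz h1
  have hsub : {w | AG A z w} ⊆ (Az.roots.toFinset : Set ℂ) := by
    intro w hw
    obtain ⟨ω, hs, -⟩ := hw
    rw [Finset.mem_coe, Multiset.mem_toFinset, Polynomial.mem_roots hne]
    show Az.eval w = 0
    rw [hAz, Polynomial.map_evalRingHom_eval]
    exact AGL_zero hs
  have hf : {w | AG A z w}.Finite := (Finset.finite_toSet _).subset hsub
  refine ⟨hf, ?_⟩
  have h1 : hf.toFinset ⊆ Az.roots.toFinset := by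
    intro w hw
    exact hsub (hf.mem_toFinset.1 hw)
  calc hf.toFinset.card ≤ Az.roots.toFinset.card := Finset.card_le_card h1
    _ ≤ Multiset.card Az.roots := Multiset.toFinset_card_le _
    _ ≤ Az.natDegree := Polynomial.card_roots' _
    _ ≤ A.natDegree := Polynomial.natDegree_map_le

theorem AGL_bound {A : ℂ[X][Y]} {B : Set ℂ} (hC : ACurve A B) {z : ℂ} (hz : z ∉ B) (c : ℂ)
    (C : ℝ) (h : ∀ w, AG A z w → ‖AGL_mu A z w‖ ≤ C) :
    ‖AGL_P A c z‖ ≤ (1 + |C| + ‖c‖) ^ A.natDegree := by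
  obtain ⟨hf, hcard⟩ := AGL_card hC hz
  have hb : (1 : ℝ) ≤ 1 + |C| + ‖c‖ := by
    have := abs_nonneg C
    have := norm_nonneg c
    linarith
  unfold AGL_P
  rw [finprod_mem_eq_finite_toFinset_prod _ hf, norm_prod]
  calc ∏ w ∈ hf.toFinset, ‖AGL_mu A z w - c‖ ≤ ∏ w ∈ hf.toFinset, (1 + |C| + ‖c‖) := by
        refine Finset.prod_le_prod (fun _ _ => norm_nonneg _) fun w hw => ?_
        have h1 := h w (hf.mem_toFinset.1 hw)
        have h2 := norm_sub_le (AGL_mu A z w) c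
        have h3 := le_abs_self C
        linarith
    _ = (1 + |C| + ‖c‖) ^ hf.toFinset.card := by rw [Finset.prod_const]
    _ ≤ _ := pow_le_pow_right₀ hb hcard

theorem AGL_mu_bound (hALO : StALO) {A : ℂ[X][Y]} {B : Set ℂ} (hC : ACurve A B) {z : ℂ}
    (hz : z ∉ B) (C : ℝ) (h : ∀ w, AG A z w → ∀ ω, Sheet A ω z w →
      ‖Mi (fun x => x) ω z‖ ^ 3 ≤ C * ‖Wr (fun x => x) ω z‖ ^ 8) :
    ∀ w, AG A z w → ‖AGL_mu A z w‖ ≤ C := by
  intro w hw
  obtain ⟨ω, hs, -⟩ := id hw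
  rw [AGL_mu_eq hALO hC hz hs]
  unfold AGL_R
  have hW := AGL_Wr_ne hC hz hs
  rw [norm_div, norm_pow, norm_pow, div_le_iff₀ (by positivity)]
  exact h w hw ω hs

theorem AGL_const (hALO : StALO) (hASH : StASH) (hAGS : StAGS) (hABD : StABD) (hALI : StALI)
    {A : ℂ[X][Y]} {B : Set ℂ} (hC : ACurve A B) (c : ℂ) :
    ∃ k, ∀ z ∉ B, AGL_P A c z = k := by
  refine hALI B (AGL_P A c) hC.fin ?_ ?_ ?_
  · intro z1 hz1
    obtain ⟨r, n, ω, J, hr, hB, hs, -, hP⟩ := AGL_local hALO hASH hAGS hC hz1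
    refine DifferentiableAt.differentiableWithinAt ?_
    have hev : AGL_P A c =ᶠ[𝓝 z1] fun z => ∏ i ∈ J, (AGL_R (ω i) z - c) := by
      filter_upwards [Metric.ball_mem_nhds z1 hr] with z hz
      exact hP c z hz
    rw [hev.differentiableAt_iff]
    refine DifferentiableAt.fun_finsetProd fun i _ => ?_
    exact (AGL_R_an hC hz1 (hs i z1 (Metric.mem_ball_self hr))).differentiableAt.sub_const c
  · intro b hb
    have hfin : (B \ {b}).Finite := hC.fin.subset sdiff_subset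
    have hopen : IsOpen (B \ {b})ᶜ := hfin.isClosed.isOpen_compl
    obtain ⟨ε, hε, hball⟩ := Metric.isOpen_iff.1 hopen b (by simp)
    have hnB : ∀ z, 0 < ‖z - b‖ → ‖z - b‖ < ε → z ∉ B := by
      intro z h0 h1 hzB
      have h2 : z ∈ Metric.ball b ε := by rwa [Metric.mem_ball, dist_eq_norm]
      refine hball h2 ⟨hzB, ?_⟩
      intro h3
      rw [Set.mem_singleton_iff] at h3
      rw [h3, sub_self, norm_zero] at h0
      exact lt_irrefl _ h0
    obtain ⟨C, ε', hε', hbd⟩ := hABD A B hC (fun t => b + t) ε hε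
      (analyticAt_const.add analyticAt_id).meromorphicAt (by fun_prop) (by
        intro t ht
        refine ⟨by simp, hnB _ ?_ ?_⟩
        · simpa using ht.1
        · have := ht.2
          rw [pow_one] at this
          simpa using this)
    refine ⟨(1 + |C| + ‖c‖) ^ A.natDegree, ?_⟩
    have hnear : ∀ᶠ z in 𝓝[≠] b, z ∈ Metric.ball b (min ε ε') :=
      nhdsWithin_le_nhds (Metric.ball_mem_nhds b (lt_min hε hε'))
    filter_upwards [hnear, self_mem_nhdsWithin] with z hz hzb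
    rw [Metric.mem_ball, dist_eq_norm, lt_min_iff] at hz
    have h0 : 0 < ‖z - b‖ := norm_pos_iff.2 (sub_ne_zero.2 hzb)
    have hzB := hnB z h0 hz.1
    refine AGL_bound hC hzB c C (AGL_mu_bound hALO hC hzB C fun w hw ω hs => ?_)
    have e : b + (z - b) = z := by ring
    have := hbd (z - b) ⟨h0, by rw [pow_one]; exact hz.2⟩ w (by simp only [e]; exact hw) ω
      (by simp only [e]; exact hs)
    simpa only [e] using this
  · obtain ⟨R, hR⟩ := hC.fin.isBounded.exists_norm_le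
    have hR0 : 0 < |R| + 1 := by positivity
    have hnB : ∀ z, |R| + 1 < ‖z‖ → z ∉ B := by
      intro z hz hzB
      have h1 := hR z hzB
      have h2 := le_abs_self R
      linarith
    have hinv : ∀ (δ : ℝ) (z : ℂ), 0 < δ → 1 / δ < ‖z‖ → 0 < ‖z⁻¹‖ ∧ ‖z⁻¹‖ ^ 1 < δ := by
      intro δ z hδ hz
      have hz0 : 0 < ‖z‖ := lt_trans (by positivity) hz
      rw [norm_inv, pow_one]
      refine ⟨by positivity, ?_⟩
      rw [inv_lt_comm₀ hz0 hδ, inv_eq_one_div]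
      exact hz
    obtain ⟨C, ε', hε', hbd⟩ := hABD A B hC (fun t => t⁻¹) (1 / (|R| + 1)) (by positivity)
      (by
        have : MeromorphicAt (fun t : ℂ => t) 0 := analyticAt_id.meromorphicAt
        exact this.inv) (by
        intro t ht
        have h0 : t ≠ 0 := norm_pos_iff.1 ht.1
        exact (differentiableAt_inv h0).differentiableWithinAt) (by
        intro t ht
        have h0 : t ≠ 0 := norm_pos_iff.1 ht.1
        refine ⟨?_, hnB _ ?_⟩
        · rw [deriv_inv]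
          simpa using h0
        · have h1 := ht.2
          rw [pow_one] at h1
          rw [norm_inv, lt_inv_comm₀ hR0 ht.1, inv_eq_one_div]
          exact h1)
    refine ⟨(1 + |C| + ‖c‖) ^ A.natDegree, max (|R| + 1) (1 / ε'), fun z hz => ?_⟩
    rw [max_lt_iff] at hz
    have hzB := hnB z hz.1
    refine AGL_bound hC hzB c C (AGL_mu_bound hALO hC hzB C fun w hw ω hs => ?_)
    have e : (z⁻¹)⁻¹ = z := inv_inv z
    have := hbd z⁻¹ (hinv ε' z hε' hz.2) w (by simp only [e]; exact hw) ω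
      (by simp only [e]; exact hs)
    simpa only [e] using this

theorem tAGL (hALO : StALO) (hASH : StASH) (hAGS : StAGS) (hABD : StABD) (hALI : StALI) :
    StAGL := by
  intro A B hC z0 hz0 w0 ω0 hAG0 hs0
  obtain ⟨r, n, ω, J, hr, hB, hs, hiff, hP⟩ := AGL_local hALO hASH hAGS hC hz0
  have hz0b : z0 ∈ Metric.ball z0 r := Metric.mem_ball_self hr
  obtain ⟨i, hi, hiw⟩ := (hiff z0 hz0b w0).1 hAG0
  have hsi : Sheet A (ω i) z0 w0 := by
    have := hs i z0 hz0b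
    rwa [hiw] at this
  have hgerm : ω0 =ᶠ[𝓝 z0] ω i := AGL_uniq hALO hC hz0 hsi hs0
  -- the finite set of values at `z0`
  have hfin : (((fun j => AGL_R (ω j) z0) '' (J : Set (Fin n))) \ {AGL_R (ω i) z0}).Finite :=
    (J.finite_toSet.image _).subset sdiff_subset
  have hmem : ∀ x ∈ Metric.ball z0 r,
      AGL_R (ω i) x ∈ (fun j => AGL_R (ω j) z0) '' (J : Set (Fin n)) := by
    intro x hx
    obtain ⟨k, hk⟩ := AGL_const hALO hASH hAGS hABD hALI hC (AGL_R (ω i) x)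
    have h1 : AGL_P A (AGL_R (ω i) x) x = 0 := by
      rw [hP _ x hx]
      exact Finset.prod_eq_zero hi (sub_self _)
    have h2 : AGL_P A (AGL_R (ω i) x) z0 = 0 := by
      rw [hk z0 hz0, ← hk x (hB hx), h1]
    rw [hP _ z0 hz0b, Finset.prod_eq_zero_iff] at h2
    obtain ⟨j, hj, hj0⟩ := h2
    exact ⟨j, hj, sub_eq_zero.1 hj0⟩
  have hcont : ContinuousAt (AGL_R (ω i)) z0 := (AGL_R_an hC hz0 hsi).continuousAt
  have hev : ∀ᶠ x in 𝓝 z0, AGL_R (ω i) x ∈
      (((fun j => AGL_R (ω j) z0) '' (J : Set (Fin n))) \ {AGL_R (ω i) z0})ᶜ :=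
    hcont.eventually_mem (hfin.isClosed.isOpen_compl.mem_nhds (by simp))
  refine ⟨AGL_R (ω i) z0, ?_⟩
  filter_upwards [hev, Metric.ball_mem_nhds z0 hr, hgerm.eventuallyEq_nhds] with x h1 h2 h3
  have h4 : AGL_R (ω i) x = AGL_R (ω i) z0 := by
    by_contra hc
    exact h1 ⟨hmem x h2, hc⟩
  rw [(AGL_germ h3).1, (AGL_germ h3).2, ← h4]
  unfold AGL_R
  have hW := AGL_Wr_ne hC (hB h2) (hs i x h2)
  field_simp

end H719FX
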