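import Pool.Agent.H719R4.FX.Alg

/-! # AGR: good points and reparametrisation -/

open Complex Set Filter Topology Polynomial

open scoped Polynomial.Bivariate

namespace H719FX

open H738CZ

theorem AGR_chain (V E : ℂ → ℂ) (s : ℂ) (hE : AnalyticAt ℂ E s) (hV : AnalyticAt ℂ V (E s)) :
    ∀ᶠ x in 𝓝 s, deriv (fun t => V (E t)) x = deriv V (E x) * deriv E x := by
  have hE0 : Tendsto E (𝓝 s) (𝓝 (E s)) := hE.continuousAt.tendsto
  filter_upwards [hE.eventually_analyticAt, hE0.eventually hV.eventually_analyticAt] with x h1 h2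
  exact (HasDerivAt.comp x h2.differentiableAt.hasDerivAt h1.differentiableAt.hasDerivAt).deriv

theorem AGR_pull (Z W E : ℂ → ℂ) (s : ℂ) (hE : AnalyticAt ℂ E s) (hE1 : deriv E s ≠ 0)
    (hZ : AnalyticAt ℂ Z (E s)) (hW : AnalyticAt ℂ W (E s)) (hG : GoodAt Z W (E s)) :
    GoodAt (fun x => Z (E x)) (fun x => W (E x)) s := by
  obtain ⟨Φ, ρ, hP, hGood⟩ := hG
  have hE0 : Tendsto E (𝓝 s) (𝓝 (E s)) := hE.continuousAt.tendsto
  have hd := AGR_chain Φ E s hE hP.aΦ
  refine ⟨fun x => Φ (E x), ρ, ⟨?_, hP.aρ, ?_, hP.nρ, ?_, ?_⟩, hGood⟩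
  · exact hP.aΦ.comp hE
  · rw [hd.self_of_nhds]
    exact mul_ne_zero hP.dΦ hE1
  · filter_upwards [AGR_chain Z E s hE hZ, hd, hE0.eventually hP.eZ] with x h1 h2 h3
    rw [h1, h2, h3]
    ring
  · filter_upwards [AGR_chain W E s hE hW, hd, hE0.eventually hP.eW] with x h1 h2 h3
    rw [h1, h2, h3]
    ring

theorem tAGR (hGRP : StGRP) : StAGR := by
  intro E ω s hE hE1 hω
  constructor
  · intro h
    exact hGRP (fun x => x) ω E s hE hE1 analyticAt_id hω h
  · intro h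
    exact AGR_pull (fun x => x) ω E s hE hE1 analyticAt_id hω h

end H719FX
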