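import Pool.Agent.H719R4.FX.Alg

/-!
# AHP: places over a punctured disc
-/

open Complex Set Filter Topology Polynomial

open scoped Polynomial.Bivariate

namespace H719FX

open H738CZ

theorem tAHP_mem {ε : ℝ} {M : ℕ} {t : ℂ} (ht : t ∈ PD ε M) :
    Real.exp ((M : ℂ) * log t).re < ε := by
  obtain ⟨h1, h2⟩ := ht
  have e1 : ((M : ℂ) * log t).re = (M : ℝ) * Real.log ‖t‖ := by
    rw [← Complex.ofReal_natCast, Complex.re_ofReal_mul, Complex.log_re]
  rw [e1, Real.exp_nat_mul, Real.exp_log h1]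
  exact h2

theorem tAHP_exp {M : ℕ} {t : ℂ} (ht : t ≠ 0) : exp ((M : ℂ) * log t) = t ^ M := by
  rw [Complex.exp_nat_mul, Complex.exp_log ht]

theorem tAHP (hACV : StACV) (hAUN : StAUN) : StAHP := by
  classical
  intro A B hA q ε hε hq hqB
  set H : Set ℂ := {ζ | Real.exp ζ.re < ε} with hH
  have hHo : IsOpen H :=
    isOpen_lt (Real.continuous_exp.comp Complex.continuous_re) continuous_const
  have hHc : Convex ℝ H := by
    have : H = {ζ : ℂ | ζ.re < Real.log ε} := by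
      ext ζ
      simp only [hH, Set.mem_setOf_eq]
      exact (Real.lt_log_iff_exp_lt hε).symm
    rw [this]
    exact convex_halfSpace_re_lt _
  have hexp : ∀ ζ ∈ H, exp ζ ∈ PD ε 1 := by
    intro ζ hζ
    refine ⟨norm_pos_iff.mpr (exp_ne_zero ζ), ?_⟩
    rw [pow_one, Complex.norm_exp]
    exact hζ
  set f : ℂ → ℂ := fun ζ => q (exp ζ) with hfdef
  have hf : DifferentiableOn ℂ f H := hq.comp Complex.differentiable_exp.differentiableOn hexp
  have hfB : ∀ ζ ∈ H, f ζ ∉ B := fun ζ h => hqB _ (hexp ζ h)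
  set ζ₁ : ℂ := ((Real.log ε - 1 : ℝ) : ℂ) with hζ₁def
  have hζ₁ : ζ₁ ∈ H := by
    change Real.exp ζ₁.re < ε
    rw [hζ₁def, Complex.ofReal_re]
    calc Real.exp (Real.log ε - 1) < Real.exp (Real.log ε) := Real.exp_lt_exp.mpr (by linarith)
      _ = ε := Real.exp_log hε
  set p : ℂ[X] := A.map (evalRingHom (f ζ₁)) with hpdef
  have hp : p ≠ 0 := by
    intro h0
    apply hA.lead (f ζ₁) (hfB _ hζ₁)
    have hc : p.coeff A.natDegree = 0 := by rw [h0]; simp
    rw [hpdef, coeff_map] at hc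
    exact hc
  set S : Finset ℂ := p.roots.toFinset with hSdef
  have hS : ∀ w, w ∈ S ↔ A.evalEval (f ζ₁) w = 0 := by
    intro w
    rw [hSdef, Multiset.mem_toFinset, mem_roots hp, IsRoot.def, hpdef, map_evalRingHom_eval]
  have hsh : ∀ (k : ℤ) (ζ : ℂ), ζ + k * (2 * Real.pi * I) ∈ H ↔ ζ ∈ H := by
    intro k ζ
    have : (ζ + k * (2 * Real.pi * I)).re = ζ.re := by
      simp
    simp only [hH, Set.mem_setOf_eq, this]
  have hfs : ∀ (k : ℤ) (ζ : ℂ), f (ζ + k * (2 * Real.pi * I)) = f ζ := by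
    intro k ζ
    simp only [hfdef]
    rw [(Complex.exp_periodic.int_mul k) ζ]
  have key : ∀ w : {w // w ∈ S}, ∃ (N : ℕ) (G : ℂ → ℂ), 1 ≤ N ∧
      (∀ ζ ∈ H, DifferentiableAt ℂ G ζ) ∧ G ζ₁ = w ∧
      (∀ ζ ∈ H, A.evalEval (f ζ) (G ζ) = 0) ∧
      Function.Periodic G ((N : ℂ) * (2 * Real.pi * I)) := by
    rintro ⟨w, hw⟩
    obtain ⟨g, hg1, hg2, hg3⟩ := hACV A B hA H f hHo hHc hf hfB ζ₁ hζ₁ w ((hS w).mp hw)
    have hv : ∀ k : ℕ, g (ζ₁ + ((k : ℤ) : ℂ) * (2 * Real.pi * I)) ∈ S := by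
      intro k
      rw [hS]
      have := hg3 _ ((hsh k ζ₁).mpr hζ₁)
      rwa [hfs] at this
    have hcont : ∀ k : ℤ, ContinuousOn (fun ζ => g (ζ + (k : ℂ) * (2 * Real.pi * I))) H := by
      intro k
      exact hg1.continuousOn.comp (continuous_id.add continuous_const).continuousOn
        (fun ζ hζ => (hsh k ζ).mpr hζ)
    have hz : ∀ (k : ℤ), ∀ ζ ∈ H, A.evalEval (f ζ) (g (ζ + (k : ℂ) * (2 * Real.pi * I))) = 0 := by
      intro k ζ hζ
      have := hg3 _ ((hsh k ζ).mpr hζ)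
      rwa [hfs] at this
    have per' : ∀ k l : ℕ, k < l → g (ζ₁ + ((k : ℤ) : ℂ) * (2 * Real.pi * I)) =
        g (ζ₁ + ((l : ℤ) : ℂ) * (2 * Real.pi * I)) →
        ∃ N : ℕ, 1 ≤ N ∧ ∀ ζ ∈ H, g (ζ + (N : ℂ) * (2 * Real.pi * I)) = g ζ := by
      intro k l hkl he
      refine ⟨l - k, by omega, fun ζ hζ => ?_⟩
      have hE := hAUN A B hA H f (fun ζ => g (ζ + ((k : ℤ) : ℂ) * (2 * Real.pi * I)))
        (fun ζ => g (ζ + ((l : ℤ) : ℂ) * (2 * Real.pi * I))) hHo hHc hf.continuousOn hfB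
        (hcont k) (hcont l) (fun x hx => ⟨hz k x hx, hz l x hx⟩) ζ₁ hζ₁ he
      have hζ' : ζ + ((-(k : ℤ) : ℤ) : ℂ) * (2 * Real.pi * I) ∈ H := (hsh _ _).mpr hζ
      have h3 := hE hζ'
      simp only at h3
      have e1 : ζ + ((-(k : ℤ) : ℤ) : ℂ) * (2 * Real.pi * I) + ((k : ℤ) : ℂ) *
          (2 * Real.pi * I) = ζ := by push_cast; ring
      have e2 : ζ + ((-(k : ℤ) : ℤ) : ℂ) * (2 * Real.pi * I) + ((l : ℤ) : ℂ) *
          (2 * Real.pi * I) = ζ + ((l - k : ℕ) : ℂ) * (2 * Real.pi * I) := by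
        rw [Nat.cast_sub hkl.le]
        push_cast
        ring
      rw [e1, e2] at h3
      exact h3.symm
    have per : ∃ N : ℕ, 1 ≤ N ∧ ∀ ζ ∈ H, g (ζ + (N : ℂ) * (2 * Real.pi * I)) = g ζ := by
      obtain ⟨k, l, hkl, heq⟩ := Finite.exists_ne_map_eq_of_infinite
        (fun k : ℕ => (⟨_, hv k⟩ : {w // w ∈ S}))
      have heq' := congrArg Subtype.val heq
      simp only at heq'
      rcases lt_or_gt_of_ne hkl with h | h
      · exact per' k l h heq'
      · exact per' l k h heq'.symm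
    obtain ⟨N, hN, hper⟩ := per
    have hGg : ∀ ζ ∈ H, (fun ζ => if ζ ∈ H then g ζ else 0) ζ = g ζ := by
      intro ζ hζ
      simp only [if_pos hζ]
    refine ⟨N, fun ζ => if ζ ∈ H then g ζ else 0, hN, ?_, ?_, ?_, ?_⟩
    · intro ζ hζ
      have h1 : DifferentiableAt ℂ g ζ := (hg1 ζ hζ).differentiableAt (hHo.mem_nhds hζ)
      refine h1.congr_of_eventuallyEq ?_
      filter_upwards [hHo.mem_nhds hζ] with x hx
      exact hGg x hx
    · rw [hGg ζ₁ hζ₁, hg2]
    · intro ζ hζ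
      rw [hGg ζ hζ]
      exact hg3 ζ hζ
    · intro ζ
      have hmem : ζ + (N : ℂ) * (2 * Real.pi * I) ∈ H ↔ ζ ∈ H := by
        have := hsh (N : ℤ) ζ
        rwa [Int.cast_natCast] at this
      by_cases hζ : ζ ∈ H
      · simp only [if_pos hζ, if_pos (hmem.mpr hζ)]
        exact hper ζ hζ
      · simp only [if_neg hζ, if_neg (fun h => hζ (hmem.mp h))]
  choose N G hN hGd hG1 hG3 hGp using key
  -- change of the branch of the logarithm
  have hbr : ∀ (v : {w // w ∈ S}) (x y : ℂ), exp x = exp y →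
      G v ((N v : ℂ) * x) = G v ((N v : ℂ) * y) := by
    intro v x y hxy
    obtain ⟨m, hm⟩ := Complex.exp_eq_exp_iff_exists_int.mp hxy
    have e1 : (N v : ℂ) * x = (N v : ℂ) * y + (m : ℂ) * ((N v : ℂ) * (2 * Real.pi * I)) := by
      rw [hm]; ring
    rw [e1]
    exact ((hGp v).int_mul m) _
  refine ⟨S.card, fun j => N (S.equivFin.symm j),
    fun j t => G (S.equivFin.symm j) ((N (S.equivFin.symm j) : ℂ) * log t), ?_, ?_⟩
  · intro j
    set v := S.equivFin.symm j with hv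
    refine ⟨hN v, ?_, ?_⟩
    · intro t₀ ht₀
      apply DifferentiableAt.differentiableWithinAt
      have ht0 : t₀ ≠ 0 := norm_pos_iff.mp ht₀.1
      have hlog : DifferentiableAt ℂ (fun t : ℂ => log (t / t₀) + log t₀) t₀ :=
        ((differentiableAt_id.div_const t₀).clog (by
          simp [ht0])).add_const _
      have hval : (N v : ℂ) * (log (t₀ / t₀) + log t₀) ∈ H := by
        rw [div_self ht0, Complex.log_one, zero_add]
        exact tAHP_mem ht₀
      have hcomp : DifferentiableAt ℂ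
          (fun t : ℂ => G v ((N v : ℂ) * (log (t / t₀) + log t₀))) t₀ :=
        DifferentiableAt.comp (g := G v)
          (f := fun t : ℂ => (N v : ℂ) * (log (t / t₀) + log t₀)) t₀ (hGd v _ hval)
          (hlog.const_mul _)
      refine hcomp.congr_of_eventuallyEq ?_
      filter_upwards [isOpen_ne.mem_nhds ht0] with t ht
      apply hbr
      rw [Complex.exp_log ht, Complex.exp_add, Complex.exp_log (div_ne_zero ht ht0),
        Complex.exp_log ht0]
      field_simp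
    · intro t ht
      have ht0 : t ≠ 0 := norm_pos_iff.mp ht.1
      have h1 := hG3 v _ (show (N v : ℂ) * log t ∈ H from tAHP_mem ht)
      simp only [hfdef] at h1
      rw [tAHP_exp ht0] at h1
      exact h1
  · intro s hs w hw
    have hs0 : s ≠ 0 := norm_pos_iff.mp hs.1
    have hlog : log s ∈ H := by
      have := tAHP_mem hs
      rw [Nat.cast_one, one_mul] at this
      exact this
    have hfl : f (log s) = q s := by
      simp only [hfdef]
      rw [Complex.exp_log hs0]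
    obtain ⟨g, hg1, hg2, hg3⟩ := hACV A B hA H f hHo hHc hf hfB (log s) hlog w
      (by rw [hfl]; exact hw)
    have hvS : g ζ₁ ∈ S := (hS _).mpr (hg3 _ hζ₁)
    set v : {w // w ∈ S} := ⟨g ζ₁, hvS⟩ with hvdef
    have hE : EqOn g (G v) H := hAUN A B hA H f g (G v) hHo hHc hf.continuousOn hfB
      hg1.continuousOn (fun ζ hζ => (hGd v ζ hζ).continuousAt.continuousWithinAt)
      (fun x hx => ⟨hg3 x hx, hG3 v x hx⟩) ζ₁ hζ₁ (hG1 v).symm
    have hNv : (N v : ℂ) ≠ 0 := by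
      have := hN v
      exact_mod_cast (by omega : N v ≠ 0)
    refine ⟨S.equivFin v, exp (log s / N v), ?_, ?_⟩
    · simp only [Equiv.symm_apply_apply]
      rw [← Complex.exp_nat_mul, mul_div_cancel₀ _ hNv, Complex.exp_log hs0]
    · simp only [Equiv.symm_apply_apply]
      rw [hbr v (log (exp (log s / N v))) (log s / N v) (Complex.exp_log (Complex.exp_ne_zero _)),
        mul_div_cancel₀ _ hNv, ← hE hlog, hg2]

end H719FX
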