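import Pool.Agent.H719R4.FX.Alg

open Complex Set Filter Topology Polynomial

open scoped Polynomial.Bivariate

namespace H719FX

open H738CZ

theorem ALI_base (P : ℂ → ℂ) (hP : Differentiable ℂ P)
    (hinf : ∃ C R : ℝ, ∀ z, R < ‖z‖ → ‖P z‖ ≤ C) : ∃ c, ∀ z, P z = c := by
  obtain ⟨C, R, hC⟩ := hinf
  obtain ⟨C', hC'⟩ := (isCompact_closedBall (0 : ℂ) R).exists_bound_of_continuousOn
    (hP.continuous.continuousOn)
  refine ⟨P 0, fun z => ?_⟩
  refine hP.apply_eq_apply_of_bounded ?_ z 0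
  rw [isBounded_iff_forall_norm_le]
  refine ⟨max C C', ?_⟩
  rintro _ ⟨w, rfl⟩
  rcases lt_or_ge R ‖w‖ with h | h
  · exact (hC w h).trans (le_max_left _ _)
  · exact (hC' w (by simpa using h)).trans (le_max_right _ _)

theorem ALI_main (B : Set ℂ) (hB : B.Finite) : ∀ P : ℂ → ℂ, DifferentiableOn ℂ P Bᶜ →
    (∀ b ∈ B, ∃ C : ℝ, ∀ᶠ z in 𝓝[≠] b, ‖P z‖ ≤ C) →
    (∃ C R : ℝ, ∀ z, R < ‖z‖ → ‖P z‖ ≤ C) → ∃ c, ∀ z ∉ B, P z = c := by
  classical
  induction B, hB using Set.Finite.induction_on with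
  | empty =>
    intro P hP _ hinf
    rw [compl_empty, differentiableOn_univ] at hP
    obtain ⟨c, hc⟩ := ALI_base P hP hinf
    exact ⟨c, fun z _ => hc z⟩
  | @insert b B' hb hB' ih =>
    intro P hP hbd hinf
    obtain ⟨C, hC⟩ := hbd b (mem_insert _ _)
    set Q : ℂ → ℂ := Function.update P b (limUnder (𝓝[≠] b) P) with hQ
    have hQP : ∀ z, z ≠ b → Q z = P z := fun z hz => Function.update_of_ne hz _ _
    have hev : ∀ z, z ≠ b → Q =ᶠ[𝓝 z] P := by
      intro z hz
      filter_upwards [isOpen_ne.mem_nhds hz] with w hw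
      exact hQP w hw
    have hBo : IsOpen B'ᶜ := hB'.isClosed.isOpen_compl
    have hBio : IsOpen (insert b B')ᶜ := (hB'.insert b).isClosed.isOpen_compl
    have hQd : DifferentiableOn ℂ Q B'ᶜ := by
      intro z hz
      by_cases hzb : z = b
      · subst hzb
        rw [eventually_nhdsWithin_iff, Metric.eventually_nhds_iff_ball] at hC
        obtain ⟨ε, hε, hball⟩ := hC
        have hs : Metric.ball z ε ∩ B'ᶜ ∈ 𝓝 z :=
          Filter.inter_mem (Metric.ball_mem_nhds z hε) (hBo.mem_nhds hz)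
        have h1 : DifferentiableOn ℂ P ((Metric.ball z ε ∩ B'ᶜ) \ {z}) := by
          refine hP.mono ?_
          rintro w ⟨⟨_, hw2⟩, hw3⟩
          rw [mem_compl_iff, mem_insert_iff, not_or]
          exact ⟨hw3, hw2⟩
        have h2 : BddAbove (norm ∘ P '' ((Metric.ball z ε ∩ B'ᶜ) \ {z})) := by
          refine ⟨C, ?_⟩
          rintro _ ⟨w, ⟨⟨hw1, _⟩, hw3⟩, rfl⟩
          exact hball w hw1 hw3
        have h3 := Complex.differentiableOn_update_limUnder_of_bddAbove hs h1 h2
        exact (h3.differentiableAt hs).differentiableWithinAt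
      · have hz' : z ∈ (insert b B')ᶜ := by
          rw [mem_compl_iff, mem_insert_iff, not_or]
          exact ⟨hzb, hz⟩
        have h1 : DifferentiableAt ℂ P z := hP.differentiableAt (hBio.mem_nhds hz')
        exact ((hev z hzb).differentiableAt_iff.2 h1).differentiableWithinAt
    obtain ⟨c, hc⟩ := ih Q hQd (by
      intro b' hb'
      obtain ⟨C', hC'⟩ := hbd b' (mem_insert_of_mem _ hb')
      have hne : b' ≠ b := by
        rintro rfl
        exact hb hb'
      refine ⟨C', ?_⟩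
      filter_upwards [hC', (hev b' hne).filter_mono nhdsWithin_le_nhds] with w hw1 hw2
      rw [hw2]
      exact hw1) (by
      obtain ⟨C', R, hCR⟩ := hinf
      refine ⟨max C' ‖Q b‖, R, fun z hz => ?_⟩
      by_cases hzb : z = b
      · rw [hzb]
        exact le_max_right _ _
      · rw [hQP z hzb]
        exact (hCR z hz).trans (le_max_left _ _))
    refine ⟨c, fun z hz => ?_⟩
    rw [mem_insert_iff, not_or] at hz
    rw [← hQP z hz.1]
    exact hc z hz.2

theorem tALI : StALI := fun B P hB hP hb hinf => ALI_main B hB P hP hb hinf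

end H719FX
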