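import Pool.Agent.H719R4.FX.Alg

/-! # AME: places are meromorphic (helper277) -/

open Complex Set Filter Topology Polynomial

open scoped Polynomial.Bivariate

namespace H719FX

open H738CZ

lemma AME_mero_of_bound (W : ℂ → ℂ) (m : ℕ) (M r : ℝ) (hr : 0 < r)
    (hd : DifferentiableOn ℂ W (Metric.ball 0 r \ {0}))
    (hb : ∀ t ∈ Metric.ball (0:ℂ) r \ {0}, ‖t ^ m * W t‖ ≤ M) : MeromorphicAt W 0 := by
  set V : ℂ → ℂ := fun t => t ^ m * W t with hV
  have hVd : DifferentiableOn ℂ V (Metric.ball 0 r \ {0}) := by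
    intro t ht
    exact ((differentiable_id.pow m).differentiableAt.differentiableWithinAt).mul (hd t ht)
  have hs : Metric.ball (0:ℂ) r ∈ 𝓝 (0:ℂ) := Metric.ball_mem_nhds _ hr
  have hbd : BddAbove (norm ∘ V '' (Metric.ball (0:ℂ) r \ {0})) := by
    refine ⟨M, ?_⟩
    rintro _ ⟨t, ht, rfl⟩
    exact hb t ht
  have h1 := Complex.differentiableOn_update_limUnder_of_bddAbove hs hVd hbd
  have h2 : AnalyticAt ℂ (Function.update V 0 (limUnder (𝓝[≠] 0) V)) 0 := h1.analyticAt hs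
  have h3 : MeromorphicAt V 0 := by
    refine h2.meromorphicAt.congr ?_
    filter_upwards [self_mem_nhdsWithin] with t ht
    exact Function.update_of_ne ht _ _
  have h4 : MeromorphicAt (fun t : ℂ => (t ^ m)⁻¹ * V t) 0 :=
    ((MeromorphicAt.id 0).pow m).inv.mul h3
  refine h4.congr ?_
  filter_upwards [self_mem_nhdsWithin] with t ht
  have : t ^ m ≠ 0 := pow_ne_zero _ ht
  simp only [hV]
  field_simp

lemma AME_root (n : ℕ) (hn : 0 < n) (c : ℕ → ℂ) (V : ℂ) (M : ℝ) (hM : ∀ k < n, ‖c k‖ ≤ M)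
    (h : V ^ n + ∑ k ∈ Finset.range n, c k * V ^ k = 0) : ‖V‖ ≤ max 1 (n * M) := by
  by_contra hcon
  rw [not_le] at hcon
  have h1 : 1 < ‖V‖ := lt_of_le_of_lt (le_max_left _ _) hcon
  have h2 : n * M < ‖V‖ := lt_of_le_of_lt (le_max_right _ _) hcon
  have hM0 : 0 ≤ M := le_trans (norm_nonneg _) (hM 0 hn)
  have h3 : ‖V‖ ^ n ≤ n * M * ‖V‖ ^ (n - 1) := by
    have e : V ^ n = -∑ k ∈ Finset.range n, c k * V ^ k := eq_neg_of_add_eq_zero_left h
    calc ‖V‖ ^ n = ‖V ^ n‖ := (norm_pow _ _).symm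
      _ = ‖∑ k ∈ Finset.range n, c k * V ^ k‖ := by rw [e, norm_neg]
      _ ≤ ∑ k ∈ Finset.range n, ‖c k * V ^ k‖ := norm_sum_le _ _
      _ ≤ ∑ k ∈ Finset.range n, M * ‖V‖ ^ (n - 1) := by
          refine Finset.sum_le_sum fun k hk => ?_
          have hk' := Finset.mem_range.mp hk
          rw [norm_mul, norm_pow]
          exact mul_le_mul (hM k hk') (pow_le_pow_right₀ h1.le (by omega)) (by positivity) hM0
      _ = n * M * ‖V‖ ^ (n - 1) := by
          rw [Finset.sum_const, Finset.card_range, nsmul_eq_mul]; ring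
  have h4 : ‖V‖ ^ n = ‖V‖ * ‖V‖ ^ (n - 1) := by
    rw [← pow_succ']; congr 1; omega
  have h5 : 0 < ‖V‖ ^ (n - 1) := by positivity
  rw [h4] at h3
  have := le_of_mul_le_mul_right h3 h5
  linarith

lemma AME_poly (p : ℂ[X]) (f : ℂ → ℂ) (x : ℂ) (hf : MeromorphicAt f x) :
    MeromorphicAt (fun t => p.eval (f t)) x := by
  induction p using Polynomial.induction_on' with
  | add p q hp hq =>
    simp only [Polynomial.eval_add]
    exact hp.add hq
  | monomial n a =>
    simp only [Polynomial.eval_monomial]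
    exact (MeromorphicAt.const a x).mul (hf.pow n)

lemma AME_bdd (f : ℂ → ℂ) (hf : MeromorphicAt f 0) :
    ∃ (m : ℕ) (M : ℝ), 0 ≤ M ∧ ∀ᶠ t in 𝓝[≠] (0:ℂ), ‖t ^ m * f t‖ ≤ M := by
  obtain ⟨m, hm⟩ := hf
  refine ⟨m, ‖((0:ℂ) - 0) ^ m • f 0‖ + 1, by positivity, ?_⟩
  have h1 := hm.continuousAt.norm
  have h2 : ∀ᶠ t in 𝓝 (0:ℂ), ‖(t - 0) ^ m • f t‖ < ‖((0:ℂ) - 0) ^ m • f 0‖ + 1 :=
    h1.eventually (gt_mem_nhds (by linarith))
  filter_upwards [nhdsWithin_le_nhds h2] with t ht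
  simpa [smul_eq_mul] using ht.le

theorem tAME : StAME := by
  intro A B hA q W ε N hε hN hq hB hW hAW
  set n := A.natDegree with hn
  have hn0 : 0 < n := hA.deg
  -- the function q(t^N) is meromorphic
  have hQ : MeromorphicAt (fun t : ℂ => q (t ^ N)) 0 := by
    have h0 : ((fun t : ℂ => t ^ N) 0) = 0 := by
      simp only; exact zero_pow (by omega)
    have h1 : MeromorphicAt q ((fun t : ℂ => t ^ N) 0) := by rw [h0]; exact hq
    exact MeromorphicAt.comp_analyticAt (f := q) (g := fun t : ℂ => t ^ N) (x := 0) h1 (by fun_prop)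
  set b : ℕ → ℂ → ℂ := fun k t => (A.coeff k).eval (q (t ^ N)) / A.leadingCoeff.eval (q (t ^ N))
    with hb
  have hbm : ∀ k, MeromorphicAt (b k) 0 := fun k =>
    (AME_poly _ _ _ hQ).div (AME_poly _ _ _ hQ)
  choose m M hM0 hMb using fun k => AME_bdd (b k) (hbm k)
  set mm : ℕ := ∑ k ∈ Finset.range n, m k with hmm
  set MM : ℝ := ∑ k ∈ Finset.range n, M k with hMM
  have hev : ∀ᶠ t in 𝓝[≠] (0:ℂ), ∀ k ∈ Finset.range n, ‖t ^ m k * b k t‖ ≤ M k := by
    rw [Filter.eventually_all_finset]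
    intro k _
    exact hMb k
  obtain ⟨r0, hr0, hr⟩ := Metric.mem_nhdsWithin_iff.mp hev
  set r : ℝ := min r0 (min 1 ε) with hrdef
  have hrpos : 0 < r := lt_min hr0 (lt_min one_pos hε)
  have hsub : Metric.ball (0:ℂ) r \ {0} ⊆ PD ε N := by
    rintro t ⟨ht, ht0⟩
    have h1 : ‖t‖ < r := by simpa using ht
    have h2 : ‖t‖ < 1 := h1.trans_le ((min_le_right _ _).trans (min_le_left _ _))
    have h3 : ‖t‖ < ε := h1.trans_le ((min_le_right _ _).trans (min_le_right _ _))
    refine ⟨norm_pos_iff.mpr ht0, lt_of_le_of_lt ?_ h3⟩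
    calc ‖t‖ ^ N ≤ ‖t‖ ^ 1 := pow_le_pow_of_le_one (norm_nonneg _) h2.le hN
      _ = ‖t‖ := pow_one _
  refine AME_mero_of_bound W mm (max 1 (n * MM)) r hrpos (hW.mono hsub) ?_
  intro t ht
  have htPD := hsub ht
  have ht1 : ‖t‖ < r := by simpa using ht.1
  have ht0 : t ≠ 0 := ht.2
  have ht2 : ‖t‖ ≤ 1 := (ht1.trans_le ((min_le_right _ _).trans (min_le_left _ _))).le
  have hqB : q (t ^ N) ∉ B := by
    refine hB _ ⟨?_, ?_⟩
    · rw [norm_pow]; exact pow_pos htPD.1 _
    · rw [norm_pow, pow_one]; exact htPD.2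
  have hlead := hA.lead _ hqB
  have hbt : ∀ k < n, ‖t ^ m k * b k t‖ ≤ M k := by
    intro k hk
    have : t ∈ Metric.ball (0:ℂ) r0 ∩ {0}ᶜ := by
      refine ⟨?_, ht0⟩
      have : ‖t‖ < r0 := ht1.trans_le (min_le_left _ _)
      simpa using this
    exact hr this k (Finset.mem_range.mpr hk)
  refine AME_root n hn0 (fun k => t ^ (mm * (n - k)) * b k t) (t ^ mm * W t) MM ?_ ?_
  · intro k hk
    have hmk : m k ≤ mm := by
      rw [hmm]
      exact Finset.single_le_sum (f := m) (fun _ _ => Nat.zero_le _) (Finset.mem_range.mpr hk)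
    have hMk : M k ≤ MM := by
      rw [hMM]
      exact Finset.single_le_sum (f := M) (fun i _ => hM0 i) (Finset.mem_range.mpr hk)
    have hexp : m k ≤ mm * (n - k) := by
      calc m k ≤ mm := hmk
        _ = mm * 1 := (mul_one _).symm
        _ ≤ mm * (n - k) := Nat.mul_le_mul_left _ (by omega)
    have e : t ^ (mm * (n - k)) * b k t = t ^ (mm * (n - k) - m k) * (t ^ m k * b k t) := by
      rw [← mul_assoc, ← pow_add]; congr 2; omega
    rw [e, norm_mul, norm_pow]
    calc ‖t‖ ^ (mm * (n - k) - m k) * ‖t ^ m k * b k t‖ ≤ 1 * M k :=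
          mul_le_mul (pow_le_one₀ (norm_nonneg _) ht2) (hbt k hk) (norm_nonneg _) zero_le_one
      _ ≤ MM := by rw [one_mul]; exact hMk
  · have hz := hAW t htPD
    have hz' : ∑ k ∈ Finset.range (n + 1), (A.coeff k).eval (q (t ^ N)) * W t ^ k = 0 := by
      rw [← hz, Polynomial.evalEval, Polynomial.eval_eq_sum_range (p := A) (C (W t)),
        Polynomial.eval_finsetSum]
      refine Finset.sum_congr rfl fun k _ => ?_
      simp
    rw [Finset.sum_range_succ] at hz'
    have hlc : (A.coeff n).eval (q (t ^ N)) = A.leadingCoeff.eval (q (t ^ N)) := rfl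
    rw [hlc] at hz'
    have hz2 : W t ^ n + ∑ k ∈ Finset.range n, b k t * W t ^ k = 0 := by
      have e1 : ∑ k ∈ Finset.range n, b k t * W t ^ k =
          (∑ k ∈ Finset.range n, (A.coeff k).eval (q (t ^ N)) * W t ^ k) /
            A.leadingCoeff.eval (q (t ^ N)) := by
        rw [Finset.sum_div]
        refine Finset.sum_congr rfl fun k _ => ?_
        simp only [hb]; ring
      rw [e1, eq_neg_of_add_eq_zero_left hz']
      field_simp
      ring
    have e2 : (t ^ mm * W t) ^ n + ∑ k ∈ Finset.range n,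
        t ^ (mm * (n - k)) * b k t * (t ^ mm * W t) ^ k =
        t ^ (mm * n) * (W t ^ n + ∑ k ∈ Finset.range n, b k t * W t ^ k) := by
      rw [mul_add, Finset.mul_sum, mul_pow, ← pow_mul]
      congr 1
      refine Finset.sum_congr rfl fun k hk => ?_
      have hk' := Finset.mem_range.mp hk
      have : t ^ (mm * n) = t ^ (mm * (n - k)) * t ^ (mm * k) := by
        rw [← pow_add, ← mul_add]; congr 2; omega
      rw [this, mul_pow, ← pow_mul]; ring
    rw [e2, hz2, mul_zero]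

end H719FX
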