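import Pool.Agent.H719R4.FX.Alg
import Pool.Agent.H719R4.FX.TMI

/-! Task AMI of project FX (helper719): covariance of `Mi` and `Wr`; after TMI.lean (helper528). -/

open Complex Set Filter Topology Polynomial

open scoped Polynomial.Bivariate

namespace H719FX

open H738CZ

lemma AMI_cov {A B h Z W : ℂ → ℂ} {t0 : ℂ} (hh : AnalyticAt ℂ h t0)
    (hA : AnalyticAt ℂ A (h t0)) (hB : AnalyticAt ℂ B (h t0))
    (hZ : ∀ᶠ t in 𝓝 t0, Z t = A (h t)) (hW : ∀ᶠ t in 𝓝 t0, W t = B (h t)) :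
    Wr Z W t0 = deriv h t0 ^ 3 * Wr A B (h t0) ∧ Mi Z W t0 = deriv h t0 ^ 8 * Mi A B (h t0) := by
  have eW : Wr Z W =ᶠ[𝓝 t0] fun t => deriv h t ^ 3 * Wr A B (h t) := by
    filter_upwards [TMI_three hA hh hZ, TMI_three hB hh hW] with t ⟨a1, a2, a3⟩ ⟨b1, b2, b3⟩
    simp only [Wr]
    rw [a1, a2, b1, b2]
    ring
  have hwa := TMI_wr_an hA hB
  have eW1 : deriv (Wr Z W) =ᶠ[𝓝 t0] fun t => 3 * deriv h t ^ 2 * deriv (deriv h) t *
      Wr A B (h t) + deriv h t ^ 4 * deriv (Wr A B) (h t) := by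
    filter_upwards [eW.deriv, TMI_chain hwa hh, TMI_self hh.deriv] with t b1 b2 b3
    rw [b1, ((b3.fun_pow 3).fun_mul b2).deriv]
    push_cast
    ring
  have eW2 : deriv (deriv (Wr Z W)) =ᶠ[𝓝 t0] fun t =>
      (6 * deriv h t * deriv (deriv h) t ^ 2 + 3 * deriv h t ^ 2 * deriv (deriv (deriv h)) t) *
        Wr A B (h t) + 7 * deriv h t ^ 3 * deriv (deriv h) t * deriv (Wr A B) (h t) +
        deriv h t ^ 5 * deriv (deriv (Wr A B)) (h t) := by
    filter_upwards [eW1.deriv, TMI_chain hwa hh, TMI_chain hwa.deriv hh, TMI_self hh.deriv,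
      TMI_self hh.deriv.deriv] with t b1 b2 b3 b4 b5
    rw [b1, ((((((b4.fun_pow 2).const_mul 3).fun_mul b5)).fun_mul b2).fun_add
      ((b4.fun_pow 4).fun_mul b3)).deriv]
    push_cast
    ring
  have hwd : ∀ᶠ t in 𝓝 t0, deriv (Wr A B) (h t) =
      deriv A (h t) * deriv (deriv (deriv B)) (h t) -
        deriv (deriv (deriv A)) (h t) * deriv B (h t) :=
    hh.continuousAt.eventually (TMI_wr_deriv hA hB)
  have eM : ∀ᶠ t in 𝓝 t0, Mi Z W t = deriv h t ^ 8 * Mi A B (h t) := by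
    filter_upwards [TMI_three hA hh hZ, TMI_three hB hh hW, eW, eW1, eW2, hwd] with t
      ⟨a1, a2, a3⟩ ⟨b1, b2, b3⟩ c0 c1 c2 c3
    simp only [Mi]
    rw [c0, c1, c2, a2, a3, b2, b3, c3]
    simp only [Wr]
    ring
  exact ⟨eW.eq_of_nhds, eM.self_of_nhds⟩

theorem tAMI : StAMI := by
  intro E ω s hE hω
  exact AMI_cov (A := fun x => x) (B := ω) (h := E) hE analyticAt_id hω
    (Eventually.of_forall fun _ => rfl) (Eventually.of_forall fun _ => rfl)

end H719FX
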