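import Pool.Agent.H719R4.FX.Alg

set_option autoImplicit false

open Complex Set Filter Topology Polynomial

open scoped Polynomial.Bivariate

namespace H719FX

open H738CZ

theorem ASH_card {A : ℂ[X][Y]} {B : Set ℂ} (h : ACurve A B) (z : ℂ) (hz : z ∉ B) :
    (A.map (evalRingHom z)) ≠ 0 ∧ (A.map (evalRingHom z)).natDegree = A.natDegree ∧
    (A.map (evalRingHom z)).roots.toFinset.card = A.natDegree := by
  have hl : (evalRingHom z) A.leadingCoeff ≠ 0 := h.lead z hz
  have hdeg : (A.map (evalRingHom z)).natDegree = A.natDegree :=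
    natDegree_map_of_leadingCoeff_ne_zero _ hl
  have h0 : (A.map (evalRingHom z)) ≠ 0 := by
    intro h1
    rw [h1, natDegree_zero] at hdeg
    have := h.deg
    omega
  refine ⟨h0, hdeg, ?_⟩
  have hnd : (A.map (evalRingHom z)).roots.Nodup := by
    rw [Multiset.nodup_iff_count_le_one]
    intro w
    rw [count_roots]
    by_contra hc
    rw [not_le, one_lt_rootMultiplicity_iff_isRoot h0] at hc
    obtain ⟨h1, h2⟩ := hc
    rw [derivative_map, IsRoot, map_evalRingHom_eval] at h2
    rw [IsRoot, map_evalRingHom_eval] at h1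
    exact h.sep z hz w h1 h2
  rw [Multiset.toFinset_card_of_nodup hnd, ← hdeg]
  exact (IsAlgClosed.splits _).natDegree_eq_card_roots.symm

theorem tASH (hALO : StALO) : StASH := by
  classical
  intro A B h z0 hz0
  obtain ⟨hne0, hdeg0, hcard0⟩ := ASH_card h z0 hz0
  set R0 : Finset ℂ := (A.map (evalRingHom z0)).roots.toFinset with hR0
  have hroot : ∀ w ∈ R0, A.evalEval z0 w = 0 := by
    intro w hw
    rw [hR0, Multiset.mem_toFinset, mem_roots hne0, IsRoot, map_evalRingHom_eval] at hw
    exact hw
  have hex : ∀ w : R0, ∃ ω : ℂ → ℂ, Sheet A ω z0 w := fun w =>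
    (hALO A B h z0 hz0 w (hroot w w.2)).1
  choose ω hω using hex
  have hB : ∀ᶠ z in 𝓝 z0, z ∉ B := h.fin.isClosed.isOpen_compl.mem_nhds hz0
  have h1 : ∀ᶠ z in 𝓝 z0, ∀ w : R0, DifferentiableAt ℂ (ω w) z := by
    rw [eventually_all]
    intro w
    exact (hω w).1.eventually_analyticAt.mono fun z hz => hz.differentiableAt
  have h2 : ∀ᶠ z in 𝓝 z0, ∀ w : R0, A.evalEval z (ω w z) = 0 := by
    rw [eventually_all]
    intro w
    exact (hω w).2.2
  have h3 : ∀ᶠ z in 𝓝 z0, ∀ w w' : R0, w ≠ w' → ω w z ≠ ω w' z := by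
    rw [eventually_all]
    intro w
    rw [eventually_all]
    intro w'
    by_cases hww : w = w'
    · exact Eventually.of_forall fun z hc => absurd hww hc
    · have hc1 : ContinuousAt (fun z => ω w z - ω w' z) z0 :=
        (hω w).1.continuousAt.sub (hω w').1.continuousAt
      have hc2 : (fun z => ω w z - ω w' z) z0 ≠ 0 := by
        show ω w z0 - ω w' z0 ≠ 0
        rw [(hω w).2.1, (hω w').2.1, sub_ne_zero]
        exact fun hc => hww (Subtype.ext hc)
      exact (hc1.eventually_ne hc2).mono fun z hz _ hc => hz (sub_eq_zero.2 hc)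
  obtain ⟨r, hr, hball⟩ := Metric.eventually_nhds_iff_ball.1 (hB.and (h1.and (h2.and h3)))
  let e : Fin R0.card ≃ R0 := R0.equivFin.symm
  refine ⟨r, R0.card, fun i => ω (e i), hr, fun z hz => (hball z hz).1, ?_, ?_, ?_⟩
  · intro i z hz
    exact ((hball z hz).2.1 (e i)).differentiableWithinAt
  · intro i j hij z hz
    exact (hball z hz).2.2.2 (e i) (e j) (fun hc => hij (e.injective hc))
  · intro z hz w
    obtain ⟨hzB, -, hz2, hz3⟩ := hball z hz
    constructor
    · intro hw
      obtain ⟨hne, hdeg, hcard⟩ := ASH_card h z hzB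
      have hinj : Function.Injective (fun i : Fin R0.card => ω (e i) z) := by
        intro i j hij
        by_contra hc
        exact hz3 (e i) (e j) (fun hc' => hc (e.injective hc')) hij
      have hsub : Finset.univ.image (fun i : Fin R0.card => ω (e i) z) ⊆
          (A.map (evalRingHom z)).roots.toFinset := by
        intro x hx
        rw [Finset.mem_image] at hx
        obtain ⟨i, -, rfl⟩ := hx
        rw [Multiset.mem_toFinset, mem_roots hne, IsRoot, map_evalRingHom_eval]
        exact hz2 (e i)
      have heq := Finset.eq_of_subset_of_card_le hsub (by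
        rw [hcard, Finset.card_image_of_injective _ hinj, Finset.card_univ, Fintype.card_fin,
          hcard0])
      have hmem : w ∈ (A.map (evalRingHom z)).roots.toFinset := by
        rw [Multiset.mem_toFinset, mem_roots hne, IsRoot, map_evalRingHom_eval]
        exact hw
      rw [← heq, Finset.mem_image] at hmem
      obtain ⟨i, -, hi⟩ := hmem
      exact ⟨i, hi⟩
    · rintro ⟨i, hi⟩
      rw [← hi]
      exact hz2 (e i)

end H719FX
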