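import Pool.Agent.H719R4.FX.Alg2
import Pool.Agent.H719R4.FX.LC

/-! # Smooth algebraic ovals: start at an analytic point -/

open Complex Set Filter Topology Polynomial

open scoped Polynomial.Bivariate ContDiff

namespace H719FX

open H738CZ

theorem AT2_ne (γ : ℝ → ℂ) (ρ : ℝ → ℝ) (ho : IsOval γ ρ) (s0 r : ℝ) (hr : 0 < r) :
    ∃ s ∈ Ioo (s0 - r) (s0 + r), ∃ t ∈ Ioo (s0 - r) (s0 + r), γ s ≠ γ t := by
  by_contra hcon
  push Not at hcon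
  have h0 : s0 ∈ Ioo (s0 - r) (s0 + r) := ⟨by linarith, by linarith⟩
  have h1 : γ =ᶠ[𝓝 s0] fun _ => γ s0 := by
    filter_upwards [Ioo_mem_nhds h0.1 h0.2] with t ht
    exact hcon t ht s0 h0
  have h6 := ho.der s0
  have h8 := h6.unique ((hasDerivAt_const s0 (γ s0)).congr_of_eventuallyEq h1)
  have h9 : (ρ s0 : ℂ) * I * cexp ((s0 : ℝ) * I) ≠ 0 := by
    refine mul_ne_zero (mul_ne_zero ?_ I_ne_zero) (Complex.exp_ne_zero _)
    exact_mod_cast (ho.pos s0).ne'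
  exact h9 h8

theorem tAT2 (hSTA : StSTA) (hSTZ : StSTZ) (hAEX : StAEX) : StAT2 := by
  intro γ ρ ho K ε hε hK hrefl hnc s0 hγ
  obtain ⟨Z, r1, hr1, hZ, hZγ⟩ := hAEX γ s0 hγ
  have hcγ : AnalyticAt ℝ (fun s => (starRingEnd ℂ) (γ s)) s0 :=
    (Complex.conjCLE.toContinuousLinearMap.analyticAt (γ s0)).comp hγ
  obtain ⟨W, r2, hr2, hW, hWγ⟩ := hAEX (fun s => (starRingEnd ℂ) (γ s)) s0 hcγ
  set r := min r1 r2 with hr
  have hrp : 0 < r := lt_min hr1 hr2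
  have hb1 : Metric.ball ((s0 : ℂ)) r ⊆ Metric.ball ((s0 : ℂ)) r1 :=
    Metric.ball_subset_ball (min_le_left _ _)
  have hb2 : Metric.ball ((s0 : ℂ)) r ⊆ Metric.ball ((s0 : ℂ)) r2 :=
    Metric.ball_subset_ball (min_le_right _ _)
  have hZ' := hZ.mono hb1
  have hW' := hW.mono hb2
  have hIoo : ∀ t ∈ Ioo (s0 - r) (s0 + r), (t : ℂ) ∈ Metric.ball ((s0 : ℂ)) r := by
    intro t ht
    rw [Metric.mem_ball, dist_eq_norm, ← Complex.ofReal_sub, Complex.norm_real,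
      Real.norm_eq_abs, abs_lt]
    exact ⟨by linarith [ht.1], by linarith [ht.2]⟩
  obtain ⟨x, Φ, R, y, η, hx, hP, hΦ, hη, hR, hRρ⟩ := hSTZ γ ρ ho Z W (s0 : ℂ) r
    (fun t => t) (s0 - r) (s0 + r) hZ' hW' continuousOn_id
    (fun t ht => ⟨hIoo t ht, hZγ t (hb1 (hIoo t ht)), hWγ t (hb2 (hIoo t ht))⟩)
    (AT2_ne γ ρ ho s0 r hrp)
  have hg : Good kcs R y := hSTA γ ρ ho K ε hε hK hrefl hnc R y η hη hR hRρ
  have hG : GoodAt Z W x := ⟨Φ, R, hP, by rw [hΦ]; exact hg⟩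
  obtain ⟨g1, g2, g3⟩ := LC_good hG
  have hf : DifferentiableOn ℂ (fun t => deriv Z t * deriv W t * Wr Z W t)
      (Metric.ball (s0 : ℂ) r) := LC_diff Metric.isOpen_ball hZ' hW'
  have hU : IsOpen {t ∈ Metric.ball (s0 : ℂ) r |
      (fun t => deriv Z t * deriv W t * Wr Z W t) t ≠ 0} :=
    hf.continuousOn.isOpen_inter_preimage Metric.isOpen_ball isOpen_compl_singleton
  obtain ⟨δ, hδ, hsub⟩ := Metric.isOpen_iff.1 hU (x : ℂ)
    ⟨hIoo x hx, mul_ne_zero (mul_ne_zero g1 g2) g3⟩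
  have hs : Metric.ball (x : ℂ) δ ⊆ Metric.ball (s0 : ℂ) r := fun t ht => (hsub ht).1
  refine ⟨x, Z, W, δ, hδ, hZ'.mono hs, hW'.mono hs, ?_, ?_, hG⟩
  · intro t ht
    exact ⟨hZγ t (hb1 (hs ht)), hWγ t (hb2 (hs ht))⟩
  · intro t ht
    have h := (hsub ht).2
    simp only [ne_eq, mul_eq_zero, not_or] at h
    exact ⟨h.1.1, h.1.2, h.2⟩

end H719FX
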