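import Pool.Agent.H719R4.FX.Fin6
import Pool.Agent.H719R4.FX.Alg2
import Pool.Agent.H719R4.FX.ALO
import Pool.Agent.H719R4.FZ.ASH
import Pool.Agent.H719R4.FZ.ACV
import Pool.Agent.H719R4.FZ.AUN
import Pool.Agent.H719R4.FZ.AHP
import Pool.Agent.H719R4.FZ.AME
import Pool.Agent.H719R4.FZ.AGR
import Pool.Agent.H719R4.FZ.AMI
import Pool.Agent.H719R4.FX.AGS
import Pool.Agent.H719R4.FX.AGP
import Pool.Agent.H719R4.FZ.ABD
import Pool.Agent.H719R4.FZ.ALI
import Pool.Agent.H719R4.FZ.AGL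
import Pool.Agent.H719R4.FZ.ABC
import Pool.Agent.H719R4.FZ.ABZ
import Pool.Agent.H719R4.FX.AEX
import Pool.Agent.H719R4.FZ.AS2
import Pool.Agent.H719R4.FZ.AT2
import Pool.Agent.H719R4.FZ.AFR
import Pool.Agent.H719R4.FX.AFL
import Pool.Agent.H719R4.FZ.AAY

/-! # Assembly, seventh part: smooth algebraic ovals -/

open Complex Set Filter Topology

namespace H719FX

open H738CZ

theorem fin_aay : StAAY := by
  have hASH := tASH tALO
  have hACV := tACV tALO hASH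
  have hAGR := tAGR tGRP
  have hAGS := tAGS fin_seg hAGR tAMI tALO
  have hAGP := tAGP hAGS tGRP
  have hABD := tABD (tAHP hACV (tAUN hASH)) tAME hAGP fin_plc tAMI tALO
  have hAGL := tAGL tALO hASH hAGS hABD tALI
  exact tAAY tAS2 (tAT2 fin_sta tSTZ tAEX) fin_lc tALO (tABZ tABC) hAGR hAGL tCQU
    (tAFL tAFR) tCEL

end H719FX
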